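import Mathlib

/-! Circulant TSP: definitions and the list machinery for Hamiltonian paths. -/

namespace CTSP

open Finset

/-- Circular length of a residue modulo `n`: the distance to `0` on the cycle `Z_n`. -/
def circLen (n : ℕ) (x : ZMod n) : ℕ := min x.val (n - x.val)

/-- The cost of the Hamiltonian cycle which visits `v 0, v 1, ..., v (n-1), v 0` in this order. -/
def tourCost {R : Type*} [AddCommMonoid R] {n : ℕ} [NeZero n] (C : ZMod n → R)
    (v : Equiv.Perm (ZMod n)) : R := ∑ i : ZMod n, C (v (i + 1) - v i)

/-- cost of a path given as a list of vertices -/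
def pathCost {R : Type*} [AddCommMonoid R] {n : ℕ} (C : ZMod n → R) : List (ZMod n) → R
  | [] => 0
  | [_] => 0
  | x :: y :: l => C (y - x) + pathCost C (y :: l)

section path
variable {R : Type*} [AddCommMonoid R] {n : ℕ} (C : ZMod n → R)

@[simp] lemma pathCost_nil : pathCost C [] = 0 := rfl
@[simp] lemma pathCost_singleton (x : ZMod n) : pathCost C [x] = 0 := rfl
lemma pathCost_cons_cons (x y : ZMod n) (l : List (ZMod n)) :
    pathCost C (x :: y :: l) = C (y - x) + pathCost C (y :: l) := rfl

lemma pathCost_append (l1 l2 : List (ZMod n)) (x y : ZMod n) :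
    pathCost C (l1 ++ [x] ++ (y :: l2)) = pathCost C (l1 ++ [x]) + C (y - x) + pathCost C (y :: l2) := by
  induction l1 with
  | nil => simp [pathCost_cons_cons]
  | cons z l1 ih =>
    cases l1 with
    | nil =>
      simp only [List.nil_append, List.cons_append] at *
      rw [pathCost_cons_cons, pathCost_cons_cons, pathCost_cons_cons]
      simp [add_assoc]
    | cons w l1 =>
      simp only [List.cons_append] at *
      rw [pathCost_cons_cons, ih, pathCost_cons_cons]
      simp [add_assoc]

lemma pathCost_append' (l1 l2 : List (ZMod n)) (x y : ZMod n) (h1 : l1.getLast? = some x)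
    (h2 : l2.head? = some y) :
    pathCost C (l1 ++ l2) = pathCost C l1 + C (y - x) + pathCost C l2 := by
  obtain ⟨l1', rfl⟩ : ∃ l1', l1 = l1' ++ [x] := by
    rw [List.getLast?_eq_some_iff] at h1
    exact h1
  obtain ⟨l2', rfl⟩ : ∃ l2', l2 = y :: l2' := by
    cases l2 with
    | nil => simp at h2
    | cons z l => simp at h2; exact ⟨l, by rw [h2]⟩
  exact pathCost_append C l1' l2' x y

lemma pathCost_reverse (hC : ∀ x, C (-x) = C x) (l : List (ZMod n)) :
    pathCost C l.reverse = pathCost C l := by
  induction l with
  | nil => rfl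
  | cons x l ih =>
    cases l with
    | nil => rfl
    | cons y l =>
      rw [pathCost_cons_cons, List.reverse_cons, pathCost_append' C (y :: l).reverse [x] y x (by simp) (by simp)]
      rw [ih]
      have : C (x - y) = C (y - x) := by rw [← hC (y - x)]; congr 1; ring
      rw [this, pathCost_singleton, add_zero, add_comm]

lemma pathCost_eq_sum (l : List (ZMod n)) :
    pathCost C l = ∑ k ∈ range (l.length - 1), C (l.getD (k + 1) 0 - l.getD k 0) := by
  induction l with
  | nil => simp
  | cons x l ih =>
    cases l with
    | nil => simp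
    | cons y l =>
      rw [pathCost_cons_cons, ih]
      simp only [List.length_cons, Nat.add_sub_cancel]
      rw [Finset.sum_range_succ', add_comm]
      simp

end path

/-- From a Hamiltonian path (as a duplicate free list) to a tour. -/
lemma exists_tour_of_list {R : Type*} [AddCommMonoid R] {n : ℕ} [NeZero n] (C : ZMod n → R)
    (L : List (ZMod n)) (hL : L.Nodup) (hlen : L.length = n) (f l : ZMod n)
    (hf : L.head? = some f) (hl : L.getLast? = some l) :
    ∃ v : Equiv.Perm (ZMod n), tourCost C v = pathCost C L + C (f - l) := by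
  have hn : 0 < n := Nat.pos_of_ne_zero (NeZero.ne n)
  let w : ZMod n → ZMod n := fun i => L.getD i.val 0
  have hval : ∀ i : ZMod n, i.val < L.length := fun i => by rw [hlen]; exact ZMod.val_lt i
  have hinj : Function.Injective w := by
    intro i j hij
    simp only [w] at hij
    rw [List.getD_eq_getElem _ _ (hval i), List.getD_eq_getElem _ _ (hval j)] at hij
    have := (List.Nodup.getElem_inj_iff hL).1 hij
    exact ZMod.val_injective n this
  let v : Equiv.Perm (ZMod n) := Equiv.ofBijective w (Finite.injective_iff_bijective.1 hinj)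
  refine ⟨v, ?_⟩
  have hsum : ∀ F : ZMod n → R, ∑ i : ZMod n, F i = ∑ k ∈ range n, F (k : ZMod n) := by
    intro F
    symm
    refine Finset.sum_bij (fun k _ => (k : ZMod n)) (fun _ _ => Finset.mem_univ _) ?_ ?_ (fun _ _ => rfl)
    · intro a ha b hb hab
      have ha' := Finset.mem_range.1 ha
      have hb' := Finset.mem_range.1 hb
      have := congrArg ZMod.val hab
      rwa [ZMod.val_natCast_of_lt ha', ZMod.val_natCast_of_lt hb'] at this
    · intro b _
      exact ⟨b.val, Finset.mem_range.2 (ZMod.val_lt b), ZMod.natCast_zmod_val b⟩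
  unfold tourCost
  rw [hsum]
  obtain ⟨m, rfl⟩ : ∃ m, n = m + 1 := ⟨n - 1, by omega⟩
  rw [Finset.sum_range_succ, pathCost_eq_sum, hlen, Nat.add_sub_cancel]
  congr 1
  · refine Finset.sum_congr rfl fun k hk => ?_
    have hk' := Finset.mem_range.1 hk
    change C (w _ - w _) = _
    simp only [w]
    have h1 : ((k : ZMod (m+1))).val = k := ZMod.val_natCast_of_lt (by omega)
    have h2 : ((k : ZMod (m+1)) + 1).val = k + 1 := by
      have : ((k : ZMod (m+1)) + 1) = ((k + 1 : ℕ) : ZMod (m+1)) := by push_cast; rfl
      rw [this, ZMod.val_natCast_of_lt (by omega)]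
    rw [h1, h2]
  · change C (w _ - w _) = _
    have h1 : ((m : ZMod (m+1))).val = m := ZMod.val_natCast_of_lt (by omega)
    have h2 : ((m : ZMod (m+1)) + 1) = 0 := by
      have : ((m : ZMod (m+1)) + 1) = ((m + 1 : ℕ) : ZMod (m+1)) := by push_cast; rfl
      rw [this]; exact ZMod.natCast_self _
    rw [h2]
    simp only [w, h1, ZMod.val_zero]
    congr 1
    congr 1
    · have : L.getD 0 0 = f := by
        cases L with
        | nil => simp at hf
        | cons z L => simp at hf; simp [hf]
      exact this
    · have : L.getD m 0 = l := by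
        rw [List.getLast?_eq_getElem?, hlen, Nat.add_sub_cancel] at hl
        rw [List.getD_eq_getElem?_getD, hl]; rfl
      exact this

end CTSP
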