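import Mathlib

/-! The unbounded knapsack recursion. -/

namespace CTSP

/-- The recursion `V 0 = 0`, `V (t+1) = min (V t) (min_{0 ≤ j ≤ t} (e (j+1) + V (t-j)))` of the
unbounded knapsack problem: `knap e t` is the least total cost `∑ e μ` of a multiset of positive
weights `μ` of total weight at most `t`. -/
def knap {R : Type*} [AddCommGroup R] [LinearOrder R] (e : ℕ → R) : ℕ → R
  | 0 => 0
  | t + 1 => ((List.finRange (t + 1)).map fun j => e (j.val + 1) + knap e (t - j.val)).foldr min
      (knap e t)

section
variable {R : Type*} [LinearOrder R]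

lemma foldr_min_le_init (l : List R) (b : R) : l.foldr min b ≤ b := by
  induction l with
  | nil => simp
  | cons x l ih => exact (min_le_right _ _).trans ih

lemma foldr_min_le_of_mem {l : List R} {x : R} (b : R) (h : x ∈ l) : l.foldr min b ≤ x := by
  induction l with
  | nil => simp at h
  | cons y l ih =>
    rcases List.mem_cons.1 h with rfl | h
    · exact min_le_left _ _
    · exact (min_le_right _ _).trans (ih h)

lemma foldr_min_mem (l : List R) (b : R) : l.foldr min b = b ∨ l.foldr min b ∈ l := by
  induction l with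
  | nil => left; rfl
  | cons y l ih =>
    simp only [List.foldr_cons]
    rcases min_choice y (l.foldr min b) with h | h
    · right; rw [h]; exact List.mem_cons_self
    · rw [h]
      rcases ih with ih | ih
      · left; exact ih
      · right; exact List.mem_cons_of_mem _ ih

end

section
variable {R : Type*} [AddCommGroup R] [LinearOrder R] [IsOrderedAddMonoid R] (e : ℕ → R)

lemma knap_succ (t : ℕ) : knap e (t + 1) =
    ((List.finRange (t + 1)).map fun j => e (j.val + 1) + knap e (t - j.val)).foldr min
      (knap e t) := by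
  rw [knap]

omit [IsOrderedAddMonoid R] in
lemma knap_succ_le (t : ℕ) : knap e (t + 1) ≤ knap e t := by
  rw [knap]; exact foldr_min_le_init _ _

omit [IsOrderedAddMonoid R] in
lemma knap_le_zero (t : ℕ) : knap e t ≤ 0 := by
  induction t with
  | zero => rw [knap]
  | succ t ih => exact (knap_succ_le e t).trans ih

omit [IsOrderedAddMonoid R] in
lemma knap_le_add {t μ : ℕ} (h1 : 1 ≤ μ) (h2 : μ ≤ t) : knap e t ≤ e μ + knap e (t - μ) := by
  obtain ⟨s, rfl⟩ : ∃ s, t = s + 1 := ⟨t - 1, by omega⟩
  rw [knap]
  refine foldr_min_le_of_mem _ (List.mem_map.2 ⟨⟨μ - 1, by omega⟩, List.mem_finRange _, ?_⟩)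
  have e1 : μ - 1 + 1 = μ := by omega
  have e2 : s - (μ - 1) = s + 1 - μ := by omega
  simp only [e1, e2]

lemma knap_le (he : e 0 = 0) (S : Multiset ℕ) : ∀ t : ℕ, S.sum ≤ t → knap e t ≤ (S.map e).sum := by
  induction S using Multiset.induction_on with
  | empty => intro t _; simpa using knap_le_zero e t
  | cons μ S ih =>
    intro t ht
    simp only [Multiset.sum_cons, Multiset.map_cons] at *
    by_cases h : μ = 0
    · subst h
      rw [he, zero_add]
      exact ih t (by omega)
    · refine (knap_le_add e (t := t) (μ := μ) (by omega) (by omega)).trans ?_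
      have := ih (t - μ) (by omega)
      gcongr

omit [IsOrderedAddMonoid R] in
lemma knap_attained : ∀ t : ℕ, ∃ S : Multiset ℕ, (∀ μ ∈ S, 1 ≤ μ) ∧ S.sum ≤ t ∧
    (S.map e).sum = knap e t := by
  intro t
  induction t using Nat.strong_induction_on with
  | _ t ih =>
    cases t with
    | zero => exact ⟨0, by simp, by simp, by rw [knap]; simp⟩
    | succ t =>
      rw [knap]
      rcases foldr_min_mem ((List.finRange (t + 1)).map fun j => e (j.val + 1) + knap e (t - j.val))
        (knap e t) with h | h
      · rw [h]
        obtain ⟨S, h1, h2, h3⟩ := ih t (by omega)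
        exact ⟨S, h1, by omega, h3⟩
      · obtain ⟨j, _, hj⟩ := List.mem_map.1 h
        rw [← hj]
        obtain ⟨S, h1, h2, h3⟩ := ih (t - j.val) (by omega)
        refine ⟨(j.val + 1) ::ₘ S, ?_, ?_, ?_⟩
        · intro μ hμ
          rcases Multiset.mem_cons.1 hμ with rfl | hμ
          · omega
          · exact h1 μ hμ
        · rw [Multiset.sum_cons]; omega
        · rw [Multiset.map_cons, Multiset.sum_cons, h3]

/-- Reducing the total weight costs at most `δ` per unit. -/
lemma knap_le_reduce (he : e 0 = 0) {δ : R} (hδ : 0 ≤ δ) {B : ℕ}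
    (hR : ∀ μ, 1 ≤ μ → μ ≤ B → e (μ - 1) ≤ e μ + δ ∨ 0 ≤ e μ + δ) (t : ℕ) :
    ∀ (X : ℕ) (S : Multiset ℕ), (∀ μ ∈ S, μ ≤ B) → S.sum ≤ t + X →
      knap e t ≤ (S.map e).sum + X • δ := by
  intro X
  induction X with
  | zero => intro S _ hs; simpa using knap_le e he S t (by omega)
  | succ X ih =>
    intro S hB hs
    by_cases h0 : ∃ μ ∈ S, 1 ≤ μ
    · obtain ⟨μ, hμ, hμ1⟩ := h0
      obtain ⟨S', rfl⟩ := Multiset.exists_cons_of_mem hμ
      simp only [Multiset.sum_cons] at hs
      rw [Multiset.map_cons, Multiset.sum_cons, succ_nsmul]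
      have hB' : ∀ ν ∈ S', ν ≤ B := fun ν hν => hB ν (Multiset.mem_cons_of_mem hν)
      have hμB := hB μ hμ
      rcases hR μ hμ1 hμB with h | h
      · have h1 := ih ((μ - 1) ::ₘ S') (by
          intro ν hν
          rcases Multiset.mem_cons.1 hν with rfl | hν
          · omega
          · exact hB' ν hν) (by rw [Multiset.sum_cons]; omega)
        rw [Multiset.map_cons, Multiset.sum_cons] at h1
        calc knap e t ≤ e (μ - 1) + (S'.map e).sum + X • δ := h1
          _ ≤ (e μ + δ) + (S'.map e).sum + X • δ := by gcongr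
          _ = e μ + (S'.map e).sum + (X • δ + δ) := by abel
      · have h1 := ih S' hB' (by omega)
        calc knap e t ≤ (S'.map e).sum + X • δ := h1
          _ = 0 + ((S'.map e).sum + X • δ) := by rw [zero_add]
          _ ≤ (e μ + δ) + ((S'.map e).sum + X • δ) := by gcongr
          _ = e μ + (S'.map e).sum + (X • δ + δ) := by abel
    · push Not at h0
      have hS : (S.map e).sum = 0 := by
        have : S.map e = S.map (fun _ => (0 : R)) := by
          refine Multiset.map_congr rfl fun μ hμ => ?_
          have : μ = 0 := by have := h0 μ hμ; omega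
          rw [this, he]
        rw [this]; simp
      rw [hS, zero_add]
      exact (knap_le_zero e t).trans (nsmul_nonneg hδ _)

end

end CTSP
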