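import Mathlib
import Pool.Agent.CTSP.Basic

/-! Circulant TSP: the parity inequality. -/

namespace CTSP

open Finset

/-- Distance of a length (or residue) `x` to `g` on the cycle `Z_{2g}`: `|(x mod 2g) - g|`. -/
def offset (g x : ℕ) : ℕ := Int.natAbs (((x % (2 * g) : ℕ) : ℤ) - g)

lemma abs_sub_le_sum (W : ℕ → ℤ) {i j : ℕ} (hij : i ≤ j) :
    |W j - W i| ≤ ∑ k ∈ Ico i j, |W (k + 1) - W k| := by
  induction j, hij using Nat.le_induction with
  | base => simp
  | succ j hij ih =>
    rw [Finset.sum_Ico_succ_top hij]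
    have : W (j + 1) - W i = (W j - W i) + (W (j + 1) - W j) := by ring
    rw [this]
    exact (abs_add_le _ _).trans (by linarith)

lemma two_mul_osc_le (W : ℕ → ℤ) {n i j : ℕ} (h : W n = W 0) (hij : i ≤ j) (hj : j ≤ n) :
    2 * |W i - W j| ≤ ∑ k ∈ range n, |W (k + 1) - W k| := by
  have h1 := abs_sub_le_sum W (Nat.zero_le i)
  have h2 := abs_sub_le_sum W hij
  have h3 := abs_sub_le_sum W hj
  have h4 : ∑ k ∈ range n, |W (k + 1) - W k| = ∑ k ∈ Ico 0 i, |W (k + 1) - W k| +
      ∑ k ∈ Ico i j, |W (k + 1) - W k| + ∑ k ∈ Ico j n, |W (k + 1) - W k| := by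
    rw [Finset.range_eq_Ico, Finset.sum_Ico_consecutive _ (Nat.zero_le i) hij,
      Finset.sum_Ico_consecutive _ (Nat.zero_le j) hj]
  rw [h4]
  have h5 : |W i - W j| = |W j - W i| := abs_sub_comm _ _
  have h6 : |W i - W j| ≤ |W i - W 0| + |W n - W j| := by
    rw [h]
    have : W i - W j = (W i - W 0) + (W 0 - W j) := by ring
    rw [this]; exact abs_add_le _ _
  linarith

section
variable {n g q : ℕ} [NeZero n]

/-- the sum over `ZMod n` as a sum over a range -/
lemma sum_zmod {R : Type*} [AddCommMonoid R] (F : ZMod n → R) :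
    ∑ i : ZMod n, F i = ∑ k ∈ range n, F (k : ZMod n) := by
  symm
  refine Finset.sum_bij (fun k _ => (k : ZMod n)) (fun _ _ => Finset.mem_univ _) ?_ ?_ (fun _ _ => rfl)
  · intro a ha b hb hab
    have ha' := Finset.mem_range.1 ha
    have hb' := Finset.mem_range.1 hb
    have := congrArg ZMod.val hab
    rwa [ZMod.val_natCast_of_lt ha', ZMod.val_natCast_of_lt hb'] at this
  · intro b _
    exact ⟨b.val, Finset.mem_range.2 (ZMod.val_lt b), ZMod.natCast_zmod_val b⟩

lemma val_sub_dvd (x y : ZMod n) : (n : ℤ) ∣ ((x - y).val : ℤ) - ((x.val : ℤ) - y.val) := by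
  rw [← ZMod.intCast_zmod_eq_zero_iff_dvd]
  push_cast
  simp

/-- **Parity inequality.** -/
theorem parity_inequality (hg : 1 ≤ g) (hn : n = 2 * q * g) (v : Equiv.Perm (ZMod n)) :
    2 * g - 2 ≤ ∑ i : ZMod n, offset g (v (i + 1) - v i).val := by
  classical
  have hnpos : 0 < n := Nat.pos_of_ne_zero (NeZero.ne n)
  set u : ℕ → ZMod n := fun i => v (i : ZMod n) with hu
  set s : ℕ → ℤ := fun i => (((u (i + 1) - u i).val % (2 * g) : ℕ) : ℤ) - g with hs
  set W : ℕ → ℤ := fun i => ((u 0).val : ℤ) + ∑ k ∈ range i, s k with hW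
  have hWs : ∀ k, W (k + 1) - W k = s k := by
    intro k; simp only [hW]; rw [Finset.sum_range_succ]; ring
  have h2g : (2 * g : ℤ) ∣ (n : ℤ) := ⟨q, by rw [hn]; push_cast; ring⟩
  have hcong : ∀ i, (2 * g : ℤ) ∣ W i - (((u i).val : ℤ) - i * g) := by
    intro i
    induction i with
    | zero => simp [hW]
    | succ i ih =>
      have e1 : W (i + 1) = W i + s i := by have := hWs i; linarith
      have e2 : (2 * g : ℤ) ∣ ((u (i + 1) - u i).val : ℤ) - (((u (i + 1)).val : ℤ) - (u i).val) :=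
        h2g.trans (val_sub_dvd _ _)
      have e3 : (2 * g : ℤ) ∣ (((u (i + 1) - u i).val % (2 * g) : ℕ) : ℤ) - ((u (i + 1) - u i).val : ℤ) := by
        have h0 := Nat.div_add_mod (u (i + 1) - u i).val (2 * g)
        have h1 : ((2 * g * ((u (i + 1) - u i).val / (2 * g)) + (u (i + 1) - u i).val % (2 * g) : ℕ) : ℤ)
            = ((u (i + 1) - u i).val : ℤ) := by rw [h0]
        rw [Nat.cast_add, Nat.cast_mul] at h1
        refine ⟨-(((u (i + 1) - u i).val / (2 * g) : ℕ) : ℤ), ?_⟩
        have h2 : ((2 * g : ℕ) : ℤ) = 2 * (g : ℤ) := by push_cast; ring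
        rw [← h2]
        linarith
      have e4 : W (i + 1) - (((u (i + 1)).val : ℤ) - ((i + 1 : ℕ) : ℤ) * g) =
        (W i - (((u i).val : ℤ) - i * g)) +
        ((((u (i + 1) - u i).val % (2 * g) : ℕ) : ℤ) - ((u (i + 1) - u i).val : ℤ)) +
        (((u (i + 1) - u i).val : ℤ) - (((u (i + 1)).val : ℤ) - (u i).val)) := by
        rw [e1]; simp only [hs]; push_cast; ring
      rw [e4]
      exact dvd_add (dvd_add ih e3) e2
  have hun : u n = u 0 := by simp [hu]
  have hclose : (2 * g : ℤ) ∣ W n - W 0 := by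
    have h1 := hcong n
    have h2 := hcong 0
    rw [hun] at h1
    have e : W n - W 0 = (W n - (((u 0).val : ℤ) - n * g)) - (W 0 - (((u 0).val : ℤ) - ((0 : ℕ) : ℤ) * g))
        - (n : ℤ) * g := by push_cast; ring
    rw [e]
    exact dvd_sub (dvd_sub h1 h2) (Dvd.dvd.mul_right h2g _)
  have hcover : ∀ z : ℤ, ∃ i < n, (g : ℤ) ∣ W i - z := by
    intro z
    refine ⟨(v.symm (z : ZMod n)).val, ZMod.val_lt _, ?_⟩
    set i := (v.symm (z : ZMod n)).val
    have hi : u i = (z : ZMod n) := by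
      simp only [hu, i]
      rw [ZMod.natCast_zmod_val, Equiv.apply_symm_apply]
    have h1 : (g : ℤ) ∣ W i - (((u i).val : ℤ) - i * g) :=
      (Dvd.intro_left (2 : ℤ) rfl).trans (hcong i)
    have h2 : (n : ℤ) ∣ ((u i).val : ℤ) - z := by
      rw [← ZMod.intCast_zmod_eq_zero_iff_dvd]
      push_cast
      rw [ZMod.natCast_zmod_val, hi]; simp
    have h3 : (g : ℤ) ∣ ((u i).val : ℤ) - z := ((Dvd.intro_left (2 : ℤ) rfl).trans h2g).trans h2
    have e : W i - z = (W i - (((u i).val : ℤ) - i * g)) + (((u i).val : ℤ) - z) - i * g := by ring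
    rw [e]
    exact dvd_sub (dvd_add h1 h3) (Dvd.intro_left _ rfl)
  -- total variation
  have hTV : (2 * g - 2 : ℤ) ≤ ∑ k ∈ range n, |W (k + 1) - W k| := by
    by_cases hW0 : W n = W 0
    · obtain ⟨i0, hi0, hmax⟩ := Finset.exists_max_image (range n) W ⟨0, Finset.mem_range.2 hnpos⟩
      obtain ⟨j0, hj0, hmin⟩ := Finset.exists_min_image (range n) W ⟨0, Finset.mem_range.2 hnpos⟩
      have hosc : (g : ℤ) - 1 ≤ W i0 - W j0 := by
        obtain ⟨i, hi, hd⟩ := hcover (W i0 + 1)
        have h1 := hmax i (Finset.mem_range.2 hi)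
        have h2 := hmin i (Finset.mem_range.2 hi)
        obtain ⟨t, ht⟩ := hd
        have ht1 : t < 0 := by
          by_contra hcon
          push Not at hcon
          have : 0 ≤ (g : ℤ) * t := by positivity
          linarith
        have ht2 : (g : ℤ) * t ≤ - g := by nlinarith
        linarith
      have hkey : 2 * |W i0 - W j0| ≤ ∑ k ∈ range n, |W (k + 1) - W k| := by
        rcases le_total i0 j0 with h | h
        · exact two_mul_osc_le W hW0 h (Finset.mem_range.1 hj0).le
        · rw [abs_sub_comm]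
          exact two_mul_osc_le W hW0 h (Finset.mem_range.1 hi0).le
      have := le_abs_self (W i0 - W j0)
      linarith
    · have h1 : (2 * g : ℤ) ≤ |W n - W 0| := by
        obtain ⟨t, ht⟩ := hclose
        have ht0 : t ≠ 0 := by rintro rfl; apply hW0; linarith
        rw [ht, abs_mul]
        have : (1 : ℤ) ≤ |t| := Int.one_le_abs ht0
        have h2 : |(2 * g : ℤ)| = 2 * g := abs_of_nonneg (by positivity)
        rw [h2]; nlinarith [show (0 : ℤ) ≤ 2 * g by positivity]
      have h2 := abs_sub_le_sum W (Nat.zero_le n)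
      rw [← Finset.range_eq_Ico] at h2
      linarith
  rw [sum_zmod]
  have hfin : ∑ k ∈ range n, |W (k + 1) - W k| =
      ((∑ k ∈ range n, offset g (v ((k : ZMod n) + 1) - v (k : ZMod n)).val : ℕ) : ℤ) := by
    push_cast
    refine Finset.sum_congr rfl fun k _ => ?_
    rw [hWs]
    simp only [hs, hu, offset, Int.natCast_natAbs]
    push_cast
    rfl
  rw [hfin] at hTV
  omega

/-- At least `g` steps leave their coset of the subgroup generated by `g`. -/
theorem card_leave (hg : 2 ≤ g) (hgn : g ∣ n) (v : Equiv.Perm (ZMod n)) :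
    g ≤ (Finset.univ.filter (fun i : ZMod n => ¬ g ∣ (v (i + 1) - v i).val)).card := by
  classical
  have hdvd : (g : ℤ) ∣ (n : ℤ) := by exact_mod_cast hgn
  have hex : ∀ j : Fin g, ∃ i : ZMod n, (v i).val % g = j.val ∧ (v (i + 1)).val % g ≠ j.val := by
    intro j
    by_contra hcon
    push Not at hcon
    have hjn : j.val < n := lt_of_lt_of_le j.2 (Nat.le_of_dvd (Nat.pos_of_ne_zero (NeZero.ne n)) hgn)
    -- start
    set i0 : ZMod n := v.symm ((j.val : ℕ) : ZMod n) with hi0
    have hstart : (v i0).val % g = j.val := by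
      rw [hi0, Equiv.apply_symm_apply, ZMod.val_natCast_of_lt hjn, Nat.mod_eq_of_lt j.2]
    have hall : ∀ k : ℕ, (v (i0 + (k : ZMod n))).val % g = j.val := by
      intro k
      induction k with
      | zero => simpa using hstart
      | succ k ih =>
        have := hcon _ ih
        push_cast
        rw [← add_assoc]
        exact this
    -- another residue
    obtain ⟨j', hj'⟩ : ∃ j' : ℕ, j' < g ∧ j' ≠ j.val := by
      by_cases h : j.val = 0
      · exact ⟨1, by omega, by omega⟩
      · exact ⟨0, by omega, by omega⟩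
    have hjn' : j' < n := lt_of_lt_of_le hj'.1 (Nat.le_of_dvd (Nat.pos_of_ne_zero (NeZero.ne n)) hgn)
    set i1 : ZMod n := v.symm ((j' : ℕ) : ZMod n) with hi1
    have h1 := hall (i1 - i0).val
    rw [ZMod.natCast_zmod_val, add_sub_cancel, hi1, Equiv.apply_symm_apply,
      ZMod.val_natCast_of_lt hjn', Nat.mod_eq_of_lt hj'.1] at h1
    exact hj'.2 h1
  choose f hf1 hf2 using hex
  have hinj : Function.Injective f := by
    intro j j' h
    have h1 := hf1 j
    rw [h, hf1 j'] at h1
    exact Fin.ext h1.symm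
  have : (Finset.univ.image f).card = g := by
    rw [Finset.card_image_of_injective _ hinj, Finset.card_univ, Fintype.card_fin]
  refine this.symm.le.trans (Finset.card_le_card ?_)
  intro i hi
  obtain ⟨j, _, rfl⟩ := Finset.mem_image.1 hi
  rw [Finset.mem_filter]
  refine ⟨Finset.mem_univ _, ?_⟩
  intro hd
  have h1 : (g : ℤ) ∣ ((v (f j + 1) - v (f j)).val : ℤ) := by exact_mod_cast hd
  have h2 : (g : ℤ) ∣ ((v (f j + 1) - v (f j)).val : ℤ) - (((v (f j + 1)).val : ℤ) - (v (f j)).val) :=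
    hdvd.trans (val_sub_dvd _ _)
  have h3 : (g : ℤ) ∣ ((v (f j + 1)).val : ℤ) - (v (f j)).val := by
    have := dvd_sub h1 h2
    simpa using this
  have h4 : (v (f j + 1)).val % g = (v (f j)).val % g := by
    have h6 : ((v (f j + 1)).val : ℤ) % g = ((v (f j)).val : ℤ) % g :=
      Int.emod_eq_emod_iff_emod_sub_eq_zero.2 (Int.emod_eq_zero_of_dvd h3)
    exact_mod_cast h6
  exact hf2 j (h4.trans (hf1 j))

lemma offset_ne_zero {x : ℕ} (h : ¬ g ∣ x) : offset g x ≠ 0 := by
  intro h0
  apply h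
  unfold offset at h0
  rw [Int.natAbs_eq_zero, sub_eq_zero] at h0
  have h1 : x % (2 * g) = g := by exact_mod_cast h0
  have h2 := Nat.div_add_mod x (2 * g)
  rw [h1] at h2
  rw [← h2]
  exact dvd_add (Dvd.dvd.mul_right (Dvd.intro_left 2 rfl) _) dvd_rfl

end

end CTSP
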