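import Mathlib
import Pool.Agent.CTSP.Basic

/-! Circulant TSP: the column insertion construction. -/

namespace CTSP

open Finset

/-- vertex in column `x` at height `k` -/
def vtx (n a E : ℕ) (x : ℕ) (k : ℤ) : ZMod n :=
  (x : ZMod n) * (E : ZMod n) + (k : ZMod n) * (a : ZMod n)

/-- the path that runs once through the whole column `x`, starting at height `k`, direction `τ` -/
def col (n a E r : ℕ) (x : ℕ) (k τ : ℤ) : List (ZMod n) :=
  (List.range r).map (fun i : ℕ => vtx n a E x (k + τ * i))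

section geom
variable {n r g a E : ℕ}

lemma ra_zero (hn : n = r * g) (ha : Nat.gcd a n = g) : ((r : ℕ) : ZMod n) * (a : ZMod n) = 0 := by
  have hga : g ∣ a := ha ▸ Nat.gcd_dvd_left a n
  obtain ⟨b, rfl⟩ := hga
  have : ((r * (g * b) : ℕ) : ZMod n) = 0 := by
    rw [ZMod.natCast_eq_zero_iff]
    exact ⟨b, by rw [hn]; ring⟩
  simpa using this

lemma vtx_inj (hn : n = r * g) (hg : 0 < g) (ha : Nat.gcd a n = g) (hE : Nat.Coprime E g) {x x' : ℕ} {k k' : ℤ}
    (hx : x < g) (hx' : x' < g) (h : vtx n a E x k = vtx n a E x' k') :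
    x = x' ∧ (r : ℤ) ∣ k' - k := by
  have hga : g ∣ a := ha ▸ Nat.gcd_dvd_left a n
  have h1 : (((x : ℤ) * E + k * a : ℤ) : ZMod n) = (((x' : ℤ) * E + k' * a : ℤ) : ZMod n) := by
    unfold vtx at h; push_cast; exact h
  rw [ZMod.intCast_eq_intCast_iff_dvd_sub] at h1
  have hxx : x = x' := by
    have h2 : (g : ℤ) ∣ (x' : ℤ) - x := by
      have h3 : (g : ℤ) ∣ ((x' : ℤ) * E + k' * a) - (x * E + k * a) :=
        dvd_trans (by rw [hn]; push_cast; exact Dvd.intro_left _ rfl) h1
      have h4 : (g : ℤ) ∣ (a : ℤ) := by exact_mod_cast hga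
      have h5 : ((x' : ℤ) - x) * E = ((x' : ℤ) * E + k' * a) - (x * E + k * a) - (k' - k) * a := by
        ring
      have h6 : (g : ℤ) ∣ ((x' : ℤ) - x) * E := by
        rw [h5]
        exact dvd_sub h3 (Dvd.dvd.mul_left h4 _)
      exact IsCoprime.dvd_of_dvd_mul_right
        (by rw [isCoprime_comm]; exact Nat.isCoprime_iff_coprime.2 hE) h6
    have h6 : |(x' : ℤ) - x| < g := by rw [abs_lt]; constructor <;> omega
    have := Int.eq_zero_of_abs_lt_dvd h2 h6
    omega
  refine ⟨hxx, ?_⟩
  subst hxx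
  obtain ⟨b, hb⟩ := hga
  have hcop : Nat.Coprime b r := by
    have : g * Nat.gcd b r = g := by
      rw [← Nat.gcd_mul_left, ← hb, mul_comm g r, ← hn, ha]
    have h' : g * Nat.gcd b r = g * 1 := by rw [this, mul_one]
    exact Nat.eq_of_mul_eq_mul_left hg h'
  have h7 : ((r : ℤ) * g) ∣ ((k' - k) * b) * g := by
    have : ((n : ℕ) : ℤ) = (r : ℤ) * g := by rw [hn]; push_cast; ring
    rw [← this]
    refine dvd_trans h1 ?_
    rw [hb]; push_cast
    exact ⟨1, by ring⟩
  have h8 : (r : ℤ) ∣ (k' - k) * b := (mul_dvd_mul_iff_right (by exact_mod_cast hg.ne')).1 h7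
  exact IsCoprime.dvd_of_dvd_mul_right (by
    rw [isCoprime_comm]; exact Nat.isCoprime_iff_coprime.2 hcop) h8

lemma vtx_add_r (hn : n = r * g) (ha : Nat.gcd a n = g) (x : ℕ) (k c : ℤ) :
    vtx n a E x (k + c * r) = vtx n a E x k := by
  unfold vtx
  push_cast
  have := ra_zero hn ha
  have h2 : ((k : ZMod n) + c * r) * a = k * a + c * ((r : ZMod n) * a) := by ring
  rw [h2, this]; ring

lemma col_length (x : ℕ) (k τ : ℤ) : (col n a E r x k τ).length = r := by simp [col]

lemma mem_col {x : ℕ} {k τ : ℤ} {v : ZMod n} (h : v ∈ col n a E r x k τ) :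
    ∃ j : ℤ, v = vtx n a E x j := by
  simp only [col, List.mem_map] at h
  obtain ⟨i, _, rfl⟩ := h
  exact ⟨_, rfl⟩

lemma col_nodup (hn : n = r * g) (hg : 0 < g) (ha : Nat.gcd a n = g) (hE : Nat.Coprime E g) {x : ℕ} (hx : x < g) (k : ℤ)
    {τ : ℤ} (hτ : τ = 1 ∨ τ = -1) : (col n a E r x k τ).Nodup := by
  unfold col
  refine List.Nodup.map_on ?_ List.nodup_range
  intro i hi j hj hij
  have hi' := List.mem_range.1 hi
  have hj' := List.mem_range.1 hj
  obtain ⟨_, hd⟩ := vtx_inj hn hg ha hE hx hx hij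
  have h1 : (r : ℤ) ∣ (j : ℤ) - i := by
    rcases hτ with rfl | rfl
    · have e : (j : ℤ) - i = (k + 1 * (j : ℤ)) - (k + 1 * (i : ℤ)) := by ring
      rw [e]; exact hd
    · have e : (j : ℤ) - i = -((k + -1 * (j : ℤ)) - (k + -1 * (i : ℤ))) := by ring
      rw [e]; exact (dvd_neg).2 hd
  have h6 : |(j : ℤ) - i| < r := by rw [abs_lt]; constructor <;> omega
  have := Int.eq_zero_of_abs_lt_dvd h1 h6
  omega

lemma col_head (hr : 2 ≤ r) (x : ℕ) (k τ : ℤ) :
    (col n a E r x k τ).head? = some (vtx n a E x k) := by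
  obtain ⟨s, rfl⟩ : ∃ s, r = s + 1 := ⟨r - 1, by omega⟩
  simp [col, List.range_succ_eq_map]

lemma col_last (hn : n = r * g) (ha : Nat.gcd a n = g) (hr : 2 ≤ r) (x : ℕ) (k τ : ℤ) :
    (col n a E r x k τ).getLast? = some (vtx n a E x (k - τ)) := by
  have h : vtx n a E x (k - τ) = vtx n a E x (k + τ * ((r - 1 : ℕ) : ℤ)) := by
    rw [← vtx_add_r hn ha x (k - τ) τ]
    congr 1
    have : ((r - 1 : ℕ) : ℤ) = r - 1 := by omega
    rw [this]; ring
  rw [h]
  obtain ⟨s, rfl⟩ : ∃ s, r = s + 1 := ⟨r - 1, by omega⟩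
  simp [col, List.range_succ]

variable {R : Type*} [AddCommMonoid R] (C : ZMod n → R)

lemma C_tau (hC : ∀ x, C (-x) = C x) (hA : C (a : ZMod n) = 0) {τ : ℤ} (hτ : τ = 1 ∨ τ = -1) :
    C ((τ : ZMod n) * (a : ZMod n)) = 0 := by
  rcases hτ with rfl | rfl
  · simpa using hA
  · have : (((-1 : ℤ) : ZMod n)) * (a : ZMod n) = - (a : ZMod n) := by push_cast; ring
    rw [this, hC, hA]

lemma pathCost_col_aux (hC : ∀ x, C (-x) = C x) (hA : C (a : ZMod n) = 0) (x : ℕ) (k : ℤ)
    {τ : ℤ} (hτ : τ = 1 ∨ τ = -1) (s : ℕ) : pathCost C (col n a E s x k τ) = 0 := by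
  rw [pathCost_eq_sum]
  refine Finset.sum_eq_zero fun i hi => ?_
  have hi' := Finset.mem_range.1 hi
  rw [col_length] at hi'
  have h1 : i + 1 < (col n a E s x k τ).length := by rw [col_length]; omega
  have h0 : i < (col n a E s x k τ).length := by rw [col_length]; omega
  rw [List.getD_eq_getElem _ _ h1, List.getD_eq_getElem _ _ h0]
  simp only [col, List.getElem_map, List.getElem_range]
  have : vtx n a E x (k + τ * ((i + 1 : ℕ) : ℤ)) - vtx n a E x (k + τ * (i : ℤ)) = (τ : ZMod n) * a := by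
    unfold vtx; push_cast; ring
  rw [this]
  exact C_tau C hC hA hτ

/-- `Reach x q η M`: there is a Hamiltonian path through the columns `0..x` of cost `M` whose
first vertex is in column `q`, whose last vertex is in column `x`, and whose heights differ by
`η`. -/
def Reach (a E r : ℕ) (x q : ℕ) (η : ℤ) (M : R) : Prop :=
  ∃ (L : List (ZMod n)) (κ : ℤ), L.Nodup ∧ L.length = (x + 1) * r ∧
    (∀ v ∈ L, ∃ j ≤ x, ∃ k : ℤ, v = vtx n a E j k) ∧ L.head? = some (vtx n a E q κ) ∧
    L.getLast? = some (vtx n a E x (κ + η)) ∧ pathCost C L = M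

lemma Reach.zero (hn : n = r * g) (hg : 0 < g) (ha : Nat.gcd a n = g) (hE : Nat.Coprime E g) (hr : 2 ≤ r)
    (hC : ∀ x, C (-x) = C x) (hA : C (a : ZMod n) = 0) {η : ℤ} (hη : η = 1 ∨ η = -1) :
    Reach C a E r 0 0 η 0 := by
  have hη' : -η = 1 ∨ -η = -1 := by rcases hη with rfl | rfl <;> simp
  refine ⟨col n a E r 0 0 (-η), 0, col_nodup hn hg ha hE hg 0 hη', by rw [col_length]; ring, ?_,
    col_head hr _ _ _, ?_, pathCost_col_aux C hC hA 0 0 hη' r⟩
  · intro v hv
    obtain ⟨j, hj⟩ := mem_col hv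
    exact ⟨0, le_refl _, j, hj⟩
  · rw [col_last hn ha hr]; congr 2; ring

section step
variable (hn : n = r * g) (hg : 0 < g) (ha : Nat.gcd a n = g) (hE : Nat.Coprime E g) (hr : 2 ≤ r)
    (hC : ∀ x, C (-x) = C x) (hA : C (a : ZMod n) = 0) {x q : ℕ} {η η' : ℤ} {M : R}
    (hx : x + 1 < g) (hη : η = 1 ∨ η = -1) (hη' : η' = 1 ∨ η' = -1) (hq : q ≤ x)

include hn hg ha hE hr hC hA hx hη' in
lemma step_data (h : Reach C a E r x q η M) :
    ∃ (L : List (ZMod n)) (κ : ℤ), L.Nodup ∧ L.length = (x + 1) * r ∧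
    (∀ v ∈ L, ∃ j ≤ x, ∃ k : ℤ, v = vtx n a E j k) ∧ L.head? = some (vtx n a E q κ) ∧
    L.getLast? = some (vtx n a E x (κ + η)) ∧ pathCost C L = M ∧
    (∀ v ∈ L, v ∉ col n a E r (x + 1) (κ + η + η') η') := by
  obtain ⟨L, κ, h1, h2, h3, h4, h5, h6⟩ := h
  refine ⟨L, κ, h1, h2, h3, h4, h5, h6, ?_⟩
  intro v hv hv'
  obtain ⟨j, hj, k, hk⟩ := h3 v hv
  obtain ⟨k', hk'⟩ := mem_col hv'
  have := (vtx_inj hn hg ha hE (x := j) (x' := x + 1) (by omega) hx (hk ▸ hk')).1
  omega

include hn hg ha hE hr hC hA hx hη' in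
/-- keep the closing edge, which grows by one -/
lemma Reach.keep (h : Reach C a E r x q η M) :
    Reach C a E r (x + 1) q η (M + C ((a : ZMod n) + (η' : ZMod n) * (E : ZMod n))) := by
  obtain ⟨L, κ, h1, h2, h3, h4, h5, h6, h7⟩ := step_data C hn hg ha hE hr hC hA hx hη' h
  refine ⟨L ++ col n a E r (x + 1) (κ + η + η') η', κ, ?_, ?_, ?_, ?_, ?_, ?_⟩
  · rw [List.nodup_append]
    refine ⟨h1, col_nodup hn hg ha hE hx _ hη', ?_⟩
    intro u hu w hw huw
    subst huw
    exact h7 u hu hw
  · rw [List.length_append, h2, col_length]; ring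
  · intro v hv
    rcases List.mem_append.1 hv with hv | hv
    · obtain ⟨j, hj, k, hk⟩ := h3 v hv
      exact ⟨j, by omega, k, hk⟩
    · obtain ⟨k', hk'⟩ := mem_col hv
      exact ⟨x + 1, le_refl _, k', hk'⟩
  · rw [List.head?_append, h4]; rfl
  · rw [List.getLast?_append, col_last hn ha hr]
    simp only [Option.some_or]
    congr 2; ring
  · rw [pathCost_append' C _ _ _ _ h5 (col_head hr _ _ _), h6, pathCost_col_aux C hC hA _ _ hη' r,
      add_zero]
    congr 1
    rcases hη' with rfl | rfl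
    · congr 1; unfold vtx; push_cast; ring
    · rw [← hC]; congr 1; unfold vtx; push_cast; ring

include hn hg ha hE hr hC hA hx hη' hη hq in
/-- make the new unit edge the closing edge -/
lemma Reach.switch (h : Reach C a E r x q η M) :
    Reach C a E r (x + 1) x η'
      (M + C ((a : ZMod n) + (η : ZMod n) * ((x + 1 - q : ℕ) : ZMod n) * (E : ZMod n))) := by
  obtain ⟨L, κ, h1, h2, h3, h4, h5, h6, h7⟩ := step_data C hn hg ha hE hr hC hA hx hη' h
  refine ⟨L.reverse ++ (col n a E r (x + 1) (κ + η + η') η').reverse, κ + η, ?_, ?_, ?_, ?_, ?_, ?_⟩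
  · rw [List.nodup_append]
    refine ⟨List.nodup_reverse.2 h1, List.nodup_reverse.2 (col_nodup hn hg ha hE hx _ hη'), ?_⟩
    intro u hu w hw huw
    subst huw
    exact h7 u (List.mem_reverse.1 hu) (List.mem_reverse.1 hw)
  · rw [List.length_append, List.length_reverse, List.length_reverse, h2, col_length]; ring
  · intro v hv
    rcases List.mem_append.1 hv with hv | hv
    · obtain ⟨j, hj, k, hk⟩ := h3 v (List.mem_reverse.1 hv)
      exact ⟨j, by omega, k, hk⟩
    · obtain ⟨k', hk'⟩ := mem_col (List.mem_reverse.1 hv)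
      exact ⟨x + 1, le_refl _, k', hk'⟩
  · rw [List.head?_append, List.head?_reverse, h5]; rfl
  · rw [List.getLast?_append, List.getLast?_reverse, col_head hr]
    rfl
  · have hl : L.reverse.getLast? = some (vtx n a E q κ) := by rw [List.getLast?_reverse, h4]
    have hh : (col n a E r (x + 1) (κ + η + η') η').reverse.head? = some (vtx n a E (x + 1) (κ + η)) := by
      rw [List.head?_reverse, col_last hn ha hr]; congr 2; ring
    rw [pathCost_append' C _ _ _ _ hl hh, pathCost_reverse C hC, pathCost_reverse C hC, h6,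
      pathCost_col_aux C hC hA _ _ hη' r, add_zero]
    congr 1
    have hcast : ((x + 1 - q : ℕ) : ZMod n) = (x : ZMod n) + 1 - q := by
      rw [Nat.cast_sub (by omega)]; push_cast; ring
    rw [hcast]
    rcases hη with rfl | rfl
    · congr 1; unfold vtx; push_cast; ring
    · rw [← hC]; congr 1; unfold vtx; push_cast; ring

include hn hg ha hE hr hC hA hx hη' hη hq in
/-- make an edge inside the new column the closing edge -/
lemma Reach.inner (h : Reach C a E r x q η M) {θ : ℤ} (hθ : θ = 1 ∨ θ = -1) :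
    Reach C a E r (x + 1) (x + 1) θ
      (M + C ((a : ZMod n) + (η : ZMod n) * ((x + 1 - q : ℕ) : ZMod n) * (E : ZMod n))
        + C ((a : ZMod n) + (η' : ZMod n) * (E : ZMod n))) := by
  obtain ⟨L, κ, h1, h2, h3, h4, h5, h6, h7⟩ := step_data C hn hg ha hE hr hC hA hx hη' h
  obtain ⟨s, rfl⟩ : ∃ s, r = s + 2 := ⟨r - 2, by omega⟩
  -- the column is `y0 :: T`
  set y0 : ZMod n := vtx n a E (x + 1) (κ + η + η') with hy0
  set T : List (ZMod n) := col n a E (s + 1) (x + 1) (κ + η + η' + η') η' with hT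
  have hcolT : col n a E (s + 2) (x + 1) (κ + η + η') η' = y0 :: T := by
    simp only [col, hT, List.range_succ_eq_map, List.map_cons, List.map_map]
    congr 1
    · simp [hy0]
    · congr 1
      · congr 1; simp
      · refine List.map_congr_left fun i _ => ?_
        simp only [Function.comp]
        congr 1; push_cast; ring
  have hnodup := col_nodup hn hg ha hE hx (κ + η + η') hη'
  rw [hcolT] at hnodup h7
  have hTh : T.head? = some (vtx n a E (x + 1) (κ + η + η' + η')) := by
    simp [hT, col, List.range_succ_eq_map]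
  have hTl : T.getLast? = some (vtx n a E (x + 1) (κ + η)) := by
    have h := col_last (E := E) hn ha hr (x + 1) (κ + η + η') η'
    rw [hcolT] at h
    have h' : (y0 :: T).getLast? = T.getLast? := by
      cases hTT : T with
      | nil => rw [hTT] at hTh; simp at hTh
      | cons t T' => rw [List.getLast?_cons_cons]
    rw [← h', h]; congr 2; ring
  have hTcost : pathCost C T = 0 := pathCost_col_aux C hC hA _ _ hη' _
  have hcast : ((x + 1 - q : ℕ) : ZMod n) = (x : ZMod n) + 1 - q := by
    rw [Nat.cast_sub (by omega)]; push_cast; ring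
  -- the list `T ++ (L ++ [y0])`
  have key : Reach C a E (s + 2) (x + 1) (x + 1) (-η')
      (M + C ((a : ZMod n) + (η : ZMod n) * ((x + 1 - q : ℕ) : ZMod n) * (E : ZMod n))
        + C ((a : ZMod n) + (η' : ZMod n) * (E : ZMod n))) ∧
      Reach C a E (s + 2) (x + 1) (x + 1) η'
      (M + C ((a : ZMod n) + (η : ZMod n) * ((x + 1 - q : ℕ) : ZMod n) * (E : ZMod n))
        + C ((a : ZMod n) + (η' : ZMod n) * (E : ZMod n))) := by
    have hnd : (T ++ (L ++ [y0])).Nodup := by
      rw [List.nodup_append]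
      rw [List.nodup_cons] at hnodup
      refine ⟨hnodup.2, ?_, ?_⟩
      · rw [List.nodup_append]
        refine ⟨h1, by simp, ?_⟩
        intro u hu w hw huw
        subst huw
        simp only [List.mem_singleton] at hw
        exact h7 u hu (by rw [hw]; simp)
      · intro u hu w hw huw
        subst huw
        rcases List.mem_append.1 hw with hw | hw
        · exact h7 u hw (by simp [hu])
        · simp only [List.mem_singleton] at hw
          rw [hw] at hu
          exact hnodup.1 hu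
    have hlen : (T ++ (L ++ [y0])).length = (x + 1 + 1) * (s + 2) := by
      simp only [List.length_append, List.length_singleton, h2]
      rw [hT, col_length]; ring
    have hmem : ∀ v ∈ T ++ (L ++ [y0]), ∃ j ≤ x + 1, ∃ k : ℤ, v = vtx n a E j k := by
      intro v hv
      rcases List.mem_append.1 hv with hv | hv
      · obtain ⟨k', hk'⟩ := mem_col hv
        exact ⟨x + 1, le_refl _, k', hk'⟩
      · rcases List.mem_append.1 hv with hv | hv
        · obtain ⟨j, hj, k, hk⟩ := h3 v hv
          exact ⟨j, by omega, k, hk⟩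
        · simp only [List.mem_singleton] at hv
          exact ⟨x + 1, le_refl _, _, hv⟩
    have hhead : (T ++ (L ++ [y0])).head? = some (vtx n a E (x + 1) (κ + η + η' + η')) := by
      rw [List.head?_append, hTh]; rfl
    have hlast : (T ++ (L ++ [y0])).getLast? = some y0 := by
      rw [← List.append_assoc]; simp
    have hcost : pathCost C (T ++ (L ++ [y0])) =
      (M + C ((a : ZMod n) + (η : ZMod n) * ((x + 1 - q : ℕ) : ZMod n) * (E : ZMod n))
        + C ((a : ZMod n) + (η' : ZMod n) * (E : ZMod n))) := by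
      have hLh : (L ++ [y0]).head? = some (vtx n a E q κ) := by
        rw [List.head?_append, h4]; rfl
      rw [pathCost_append' C _ _ _ _ hTl hLh, hTcost, zero_add,
        pathCost_append' C _ _ _ _ h5 (List.head?_cons), h6, pathCost_singleton, add_zero, hcast]
      have e1 : C (vtx n a E q κ - vtx n a E (x + 1) (κ + η)) =
          C ((a : ZMod n) + (η : ZMod n) * ((x : ZMod n) + 1 - q) * (E : ZMod n)) := by
        rcases hη with rfl | rfl
        · rw [← hC]; congr 1; unfold vtx; push_cast; ring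
        · congr 1; unfold vtx; push_cast; ring
      have e2 : C (y0 - vtx n a E x (κ + η)) = C ((a : ZMod n) + (η' : ZMod n) * (E : ZMod n)) := by
        rcases hη' with rfl | rfl
        · congr 1; rw [hy0]; unfold vtx; push_cast; ring
        · rw [← hC]; congr 1; rw [hy0]; unfold vtx; push_cast; ring
      rw [e1, e2]
      abel
    constructor
    · refine ⟨T ++ (L ++ [y0]), κ + η + η' + η', hnd, hlen, hmem, hhead, ?_, hcost⟩
      rw [hlast, hy0]; congr 2; ring
    · refine ⟨(T ++ (L ++ [y0])).reverse, κ + η + η', List.nodup_reverse.2 hnd, ?_, ?_, ?_, ?_, ?_⟩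
      · rw [List.length_reverse, hlen]
      · intro v hv; exact hmem v (List.mem_reverse.1 hv)
      · rw [List.head?_reverse, hlast]
      · rw [List.getLast?_reverse, hhead]
      · rw [pathCost_reverse C hC, hcost]
  rcases hθ with rfl | rfl <;> rcases hη' with rfl | rfl
  · exact key.2
  · simpa using key.1
  · exact key.1
  · exact key.2

end step

end geom

end CTSP
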