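import Mathlib
import Pool.Agent.CTSP.Upper

/-! Circulant TSP: realisation of multisets of lengths. -/

namespace CTSP

open Finset

lemma exists_unit_of_sum_lt {S : Multiset ℤ} (h0 : ∀ e ∈ S, e ≠ 0)
    (h : (S.map Int.natAbs).sum < 2 * S.card) : ∃ u ∈ S, u.natAbs = 1 := by
  by_contra hcon
  push Not at hcon
  have h2 : ∀ e ∈ S, 2 ≤ e.natAbs := by
    intro e he
    have h1 := hcon e he
    have h3 : e.natAbs ≠ 0 := by simpa using h0 e he
    omega
  have h4 : S.card • 2 ≤ (S.map Int.natAbs).sum := by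
    have := Multiset.card_nsmul_le_sum (s := S.map Int.natAbs) (a := 2) (by
      intro x hx
      obtain ⟨e, he, rfl⟩ := Multiset.mem_map.1 hx
      exact h2 e he)
    simpa using this
  simp only [smul_eq_mul] at h4
  omega

lemma unit_cases {u : ℤ} (h : u.natAbs = 1) : u = 1 ∨ u = -1 := Int.natAbs_eq_iff.1 h

section
variable {n r g a E : ℕ} {R : Type*} [AddCommMonoid R] (C : ZMod n → R)

/-- total cost of the long edges -/
def partCost (C : ZMod n → R) (a E : ℕ) (S : Multiset ℤ) : R :=
  (S.map (fun e : ℤ => C ((a : ZMod n) + (e : ZMod n) * (E : ZMod n)))).sum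

lemma partCost_cons (e : ℤ) (S : Multiset ℤ) :
    partCost C a E (e ::ₘ S) = C ((a : ZMod n) + (e : ZMod n) * (E : ZMod n)) + partCost C a E S := by
  simp [partCost]

/-- The induction statement. -/
def TT (C : ZMod n → R) (a E r x : ℕ) : Prop :=
  (∀ (ε : ℤ) (S : Multiset ℤ), ε ≠ 0 → (∀ e ∈ S, e ≠ 0) →
    ε.natAbs + (S.map Int.natAbs).sum = 2 * x → x ≤ S.card →
    Reach C a E r x (x - ε.natAbs) ε.sign (partCost C a E S)) ∧
  (∀ (S : Multiset ℤ), (∀ e ∈ S, e ≠ 0) → (S.map Int.natAbs).sum = 2 * x →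
    (x + 1 ≤ S.card ∨ x = 0) → ∀ η : ℤ, (η = 1 ∨ η = -1) →
    Reach C a E r x x η (partCost C a E S))

lemma natAbs_sum_pos {S : Multiset ℤ} (h0 : ∀ e ∈ S, e ≠ 0) : S.card ≤ (S.map Int.natAbs).sum := by
  have := Multiset.card_nsmul_le_sum (s := S.map Int.natAbs) (a := 1) (by
      intro x hx
      obtain ⟨e, he, rfl⟩ := Multiset.mem_map.1 hx
      have := h0 e he
      omega)
  simpa using this

lemma TT_zero (hn : n = r * g) (hg : 0 < g) (ha : Nat.gcd a n = g) (hE : Nat.Coprime E g) (hr : 2 ≤ r)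
    (hC : ∀ x, C (-x) = C x) (hA : C (a : ZMod n) = 0) : TT C a E r 0 := by
  constructor
  · intro ε S h1 _ h3 _
    exfalso
    apply h1
    have : ε.natAbs = 0 := by omega
    simpa using this
  · intro S h0 hs _ η hη
    have hcard : S.card = 0 := by
      have := natAbs_sum_pos h0
      omega
    rw [Multiset.card_eq_zero] at hcard
    subst hcard
    have := Reach.zero C hn hg ha hE hr hC hA hη
    simpa [partCost] using this

lemma pre_step {x : ℕ} (hT : TT C a E r x) {ε : ℤ} (hε : ε ≠ 0) {S : Multiset ℤ} (h0 : ∀ e ∈ S, e ≠ 0)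
    (hs : ε.natAbs + 1 + (S.map Int.natAbs).sum = 2 * (x + 1)) (hc : x ≤ S.card)
    (hb : 2 ≤ ε.natAbs ∨ ∀ e ∈ S, e.natAbs = 1) :
    Reach C a E r x (x + 1 - ε.natAbs) ε.sign (partCost C a E S) := by
  by_cases h2 : 2 ≤ ε.natAbs
  · have e1 : (ε - ε.sign).natAbs = ε.natAbs - 1 := by
      rcases lt_or_gt_of_ne hε with h | h
      · rw [Int.sign_eq_neg_one_of_neg h]; omega
      · rw [Int.sign_eq_one_of_pos h]; omega
    have e2 : (ε - ε.sign).sign = ε.sign := by
      rcases lt_or_gt_of_ne hε with h | h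
      · rw [Int.sign_eq_neg_one_of_neg h]; apply Int.sign_eq_neg_one_of_neg; omega
      · rw [Int.sign_eq_one_of_pos h]; apply Int.sign_eq_one_of_pos; omega
    have e3 : ε - ε.sign ≠ 0 := by
      intro h; rw [h] at e1; simp at e1; omega
    have := hT.1 (ε - ε.sign) S e3 h0 (by rw [e1]; omega) hc
    rw [e1, e2] at this
    have e4 : x - (ε.natAbs - 1) = x + 1 - ε.natAbs := by omega
    rwa [e4] at this
  · have h1 : ε.natAbs = 1 := by
      have : ε.natAbs ≠ 0 := by simpa using hε
      omega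
    have hu : ∀ e ∈ S, e.natAbs = 1 := by
      rcases hb with hb | hb
      · omega
      · exact hb
    have hsum : (S.map Int.natAbs).sum = S.card := by
      have : S.map Int.natAbs = S.map (fun _ => 1) := Multiset.map_congr rfl hu
      rw [this]; simp
    have hη : ε.sign = 1 ∨ ε.sign = -1 := by
      rcases unit_cases h1 with rfl | rfl <;> simp
    have := hT.2 S h0 (by omega) (by
      by_cases hx : x = 0
      · right; exact hx
      · left; omega) ε.sign hη
    rw [h1]
    simpa using this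

lemma TT_succ (hn : n = r * g) (hg : 0 < g) (ha : Nat.gcd a n = g) (hE : Nat.Coprime E g) (hr : 2 ≤ r)
    (hC : ∀ x, C (-x) = C x) (hA : C (a : ZMod n) = 0) {x : ℕ} (hx : x + 1 < g)
    (hT : TT C a E r x) : TT C a E r (x + 1) := by
  -- the switch step
  have hswitch : ∀ (u ε : ℤ) (S : Multiset ℤ), u.natAbs = 1 → ε ≠ 0 → (∀ e ∈ S, e ≠ 0) →
      ε.natAbs + 1 + (S.map Int.natAbs).sum = 2 * (x + 1) → x ≤ S.card →
      (2 ≤ ε.natAbs ∨ ∀ e ∈ S, e.natAbs = 1) →
      Reach C a E r (x + 1) x u (C ((a : ZMod n) + (ε : ZMod n) * (E : ZMod n)) + partCost C a E S) := by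
    intro u ε S hu hε h0 hs hc hb
    have h := pre_step C hT hε h0 hs hc hb
    have hη : ε.sign = 1 ∨ ε.sign = -1 := by
      rcases lt_or_gt_of_ne hε with h | h
      · right; exact Int.sign_eq_neg_one_of_neg h
      · left; exact Int.sign_eq_one_of_pos h
    have hεx : ε.natAbs ≤ x + 1 := by
      have := natAbs_sum_pos h0
      omega
    have hε1 : 1 ≤ ε.natAbs := by
      have : ε.natAbs ≠ 0 := by simpa using hε
      omega
    have h2 := Reach.switch C hn hg ha hE hr hC hA hx hη (unit_cases hu) (by omega) h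
    have e1 : x + 1 - (x + 1 - ε.natAbs) = ε.natAbs := by omega
    rw [e1] at h2
    have e2 : (ε.sign : ZMod n) * ((ε.natAbs : ℕ) : ZMod n) = (ε : ZMod n) := by
      have h3 := congrArg (fun z : ℤ => (z : ZMod n)) (Int.sign_mul_natAbs ε)
      simp only [Int.cast_mul, Int.cast_natCast] at h3
      exact h3
    rw [e2, add_comm (partCost C a E S)] at h2
    exact h2
  have hinner : ∀ (u ε : ℤ) (S : Multiset ℤ), u.natAbs = 1 → ε ≠ 0 → (∀ e ∈ S, e ≠ 0) →
      ε.natAbs + 1 + (S.map Int.natAbs).sum = 2 * (x + 1) → x ≤ S.card →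
      (2 ≤ ε.natAbs ∨ ∀ e ∈ S, e.natAbs = 1) → ∀ θ : ℤ, (θ = 1 ∨ θ = -1) →
      Reach C a E r (x + 1) (x + 1) θ (C ((a : ZMod n) + (u : ZMod n) * (E : ZMod n)) +
        (C ((a : ZMod n) + (ε : ZMod n) * (E : ZMod n)) + partCost C a E S)) := by
    intro u ε S hu hε h0 hs hc hb θ hθ
    have h := pre_step C hT hε h0 hs hc hb
    have hη : ε.sign = 1 ∨ ε.sign = -1 := by
      rcases lt_or_gt_of_ne hε with h | h
      · right; exact Int.sign_eq_neg_one_of_neg h
      · left; exact Int.sign_eq_one_of_pos h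
    have hεx : ε.natAbs ≤ x + 1 := by
      have := natAbs_sum_pos h0
      omega
    have hε1 : 1 ≤ ε.natAbs := by
      have : ε.natAbs ≠ 0 := by simpa using hε
      omega
    have h2 := Reach.inner C hn hg ha hE hr hC hA hx hη (unit_cases hu) (by omega) h hθ
    have e1 : x + 1 - (x + 1 - ε.natAbs) = ε.natAbs := by omega
    rw [e1] at h2
    have e2 : (ε.sign : ZMod n) * ((ε.natAbs : ℕ) : ZMod n) = (ε : ZMod n) := by
      have h3 := congrArg (fun z : ℤ => (z : ZMod n)) (Int.sign_mul_natAbs ε)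
      simp only [Int.cast_mul, Int.cast_natCast] at h3
      exact h3
    rw [e2] at h2
    have e3 : C ((a : ZMod n) + (u : ZMod n) * (E : ZMod n)) +
        (C ((a : ZMod n) + (ε : ZMod n) * (E : ZMod n)) + partCost C a E S) = partCost C a E S +
        C ((a : ZMod n) + (ε : ZMod n) * (E : ZMod n)) + C ((a : ZMod n) + (u : ZMod n) * (E : ZMod n)) := by abel
    rw [e3]
    exact h2
  constructor
  · intro ε S hε h0 hs hc
    have hε1 : 1 ≤ ε.natAbs := by
      have : ε.natAbs ≠ 0 := by simpa using hε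
      omega
    by_cases h2 : 2 ≤ ε.natAbs
    · obtain ⟨u, hu, hu1⟩ := exists_unit_of_sum_lt h0 (by omega)
      obtain ⟨S', rfl⟩ := Multiset.exists_cons_of_mem hu
      simp only [Multiset.map_cons, Multiset.sum_cons, Multiset.card_cons] at hs hc
      have h0' : ∀ e ∈ S', e ≠ 0 := fun e he => h0 e (Multiset.mem_cons_of_mem he)
      have h := pre_step C hT hε h0' (by omega) (by omega) (Or.inl h2)
      have h3 := Reach.keep C hn hg ha hE hr hC hA hx (unit_cases hu1) h
      rw [partCost_cons, add_comm (C _)]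
      exact h3
    · have h1 : ε.natAbs = 1 := by omega
      have hsgn : ε.sign = ε := by
        rcases unit_cases h1 with rfl | rfl <;> simp
      by_cases hb : ∃ e ∈ S, 2 ≤ e.natAbs
      · obtain ⟨e, he, he2⟩ := hb
        obtain ⟨S', rfl⟩ := Multiset.exists_cons_of_mem he
        simp only [Multiset.map_cons, Multiset.sum_cons, Multiset.card_cons] at hs hc
        have h := hswitch ε e S' h1 (h0 e he) (fun e' he' => h0 e' (Multiset.mem_cons_of_mem he'))
          (by omega) (by omega) (Or.inl he2)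
        rw [partCost_cons, hsgn, h1]
        exact h
      · push Not at hb
        have hall : ∀ e ∈ S, e.natAbs = 1 := by
          intro e he
          have h1 := hb e he
          have h3 : e.natAbs ≠ 0 := by simpa using h0 e he
          omega
        have hne : S ≠ 0 := by
          rintro rfl
          simp at hs
          omega
        obtain ⟨e, he⟩ := Multiset.exists_mem_of_ne_zero hne
        obtain ⟨S', rfl⟩ := Multiset.exists_cons_of_mem he
        simp only [Multiset.map_cons, Multiset.sum_cons, Multiset.card_cons] at hs hc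
        have he1 := hall e he
        have h := hswitch ε e S' h1 (h0 e he) (fun e' he' => h0 e' (Multiset.mem_cons_of_mem he'))
          (by omega) (by omega) (Or.inr (fun e' he' => hall e' (Multiset.mem_cons_of_mem he')))
        rw [partCost_cons, hsgn, h1]
        exact h
  · intro S h0 hs hc η hη
    have hc' : x + 1 + 1 ≤ S.card := by
      rcases hc with hc | hc
      · exact hc
      · omega
    by_cases hb : ∃ e ∈ S, 2 ≤ e.natAbs
    · obtain ⟨e, he, he2⟩ := hb
      obtain ⟨S', rfl⟩ := Multiset.exists_cons_of_mem he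
      simp only [Multiset.map_cons, Multiset.sum_cons, Multiset.card_cons] at hs hc'
      have h0' : ∀ e ∈ S', e ≠ 0 := fun e' he' => h0 e' (Multiset.mem_cons_of_mem he')
      obtain ⟨u, hu, hu1⟩ := exists_unit_of_sum_lt h0' (by omega)
      obtain ⟨S'', rfl⟩ := Multiset.exists_cons_of_mem hu
      simp only [Multiset.map_cons, Multiset.sum_cons, Multiset.card_cons] at hs hc'
      have h := hinner u e S'' hu1 (h0 e he) (fun e' he' => h0' e' (Multiset.mem_cons_of_mem he'))
        (by omega) (by omega) (Or.inl he2) η hη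
      rw [partCost_cons, partCost_cons, add_left_comm]
      exact h
    · push Not at hb
      have hall : ∀ e ∈ S, e.natAbs = 1 := by
        intro e he
        have h1 := hb e he
        have h3 : e.natAbs ≠ 0 := by simpa using h0 e he
        omega
      have hne : S ≠ 0 := by
        rintro rfl
        simp at hs
      obtain ⟨u, hu⟩ := Multiset.exists_mem_of_ne_zero hne
      obtain ⟨S', rfl⟩ := Multiset.exists_cons_of_mem hu
      have hu1 := hall u hu
      simp only [Multiset.map_cons, Multiset.sum_cons, Multiset.card_cons] at hs hc'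
      have hne' : S' ≠ 0 := by
        rintro rfl
        simp at hs
        omega
      obtain ⟨e, he⟩ := Multiset.exists_mem_of_ne_zero hne'
      obtain ⟨S'', rfl⟩ := Multiset.exists_cons_of_mem he
      have he1 := hall e (Multiset.mem_cons_of_mem he)
      simp only [Multiset.map_cons, Multiset.sum_cons, Multiset.card_cons] at hs hc'
      have h := hinner u e S'' hu1 (h0 e (Multiset.mem_cons_of_mem he))
        (fun e' he' => h0 e' (Multiset.mem_cons_of_mem (Multiset.mem_cons_of_mem he')))
        (by omega) (by omega)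
        (Or.inr (fun e' he' => hall e' (Multiset.mem_cons_of_mem (Multiset.mem_cons_of_mem he')))) η hη
      rw [partCost_cons, partCost_cons]
      exact h

lemma TT_all (hn : n = r * g) (hg : 0 < g) (ha : Nat.gcd a n = g) (hE : Nat.Coprime E g) (hr : 2 ≤ r)
    (hC : ∀ x, C (-x) = C x) (hA : C (a : ZMod n) = 0) : ∀ x, x < g → TT C a E r x := by
  intro x
  induction x with
  | zero => intro _; exact TT_zero C hn hg ha hE hr hC hA
  | succ x ih => intro hx; exact TT_succ C hn hg ha hE hr hC hA hx (ih (by omega))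

lemma realize_zero [NeZero n] (hn : n = r * g) (hg : 2 ≤ g) (ha : Nat.gcd a n = g) (hE : Nat.Coprime E g) (hr : 2 ≤ r)
    (hC : ∀ x, C (-x) = C x) (hA : C (a : ZMod n) = 0) (S : Multiset ℤ) (h0 : ∀ e ∈ S, e ≠ 0)
    (hs : (S.map Int.natAbs).sum = 2 * (g - 1)) (hc : g ≤ S.card) :
    ∃ v : Equiv.Perm (ZMod n), tourCost C v = partCost C a E S := by
  obtain ⟨L, κ, h1, h2, h3, h4, h5, h6⟩ :=
    (TT_all C hn (by omega) ha hE hr hC hA (g - 1) (by omega)).2 S h0 hs (Or.inl (by omega)) 1 (Or.inl rfl)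
  have hlen : L.length = n := by
    rw [h2, hn]
    have : g - 1 + 1 = g := by omega
    rw [this]; ring
  obtain ⟨v, hv⟩ := exists_tour_of_list C L h1 hlen _ _ h4 h5
  refine ⟨v, ?_⟩
  rw [hv, h6]
  have : vtx n a E (g - 1) κ - vtx n a E (g - 1) (κ + 1) = - (a : ZMod n) := by
    unfold vtx; push_cast; ring
  rw [this, hC, hA, add_zero]

end

/-- Realisation theorem: all multisets of lengths `a^(n-m), a + e_1, ..., a + e_m` with
`∑ |e_i| = 2 (g - 1)`, `m ≥ g`, are realised by Hamiltonian cycles. -/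
theorem realize {n r g a E : ℕ} {R : Type*} [AddCommGroup R] (C : ZMod n → R) [NeZero n]
    (hn : n = r * g) (hg : 2 ≤ g) (ha : Nat.gcd a n = g) (hE : Nat.Coprime E g) (hr : 2 ≤ r)
    (hC : ∀ x, C (-x) = C x) (S : Multiset ℤ) (h0 : ∀ e ∈ S, e ≠ 0)
    (hs : (S.map Int.natAbs).sum = 2 * (g - 1)) (hc : g ≤ S.card) :
    ∃ v : Equiv.Perm (ZMod n), tourCost C v = n • C (a : ZMod n) +
      (S.map (fun e : ℤ => C ((a : ZMod n) + (e : ZMod n) * (E : ZMod n)) - C (a : ZMod n))).sum := by
  obtain ⟨v, hv⟩ := realize_zero (E := E) (fun x => C x - C (a : ZMod n)) hn hg ha hE hr (fun x => by simp [hC])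
    (by simp) S h0 hs hc
  refine ⟨v, ?_⟩
  unfold partCost at hv
  rw [← hv]
  unfold tourCost
  rw [Finset.sum_sub_distrib]
  simp [ZMod.card]

end CTSP
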