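import Mathlib
import Pool.Agent.CTSP.Realize
import Pool.Agent.CTSP.Lower
import Pool.Agent.CTSP.Knap

/-! Circulant TSP: the knapsack theorem. -/

namespace CTSP

open Finset

section
variable {R : Type*} [AddCommGroup R] [LinearOrder R] [IsOrderedAddMonoid R] {n : ℕ}

/-- `D l`: the cheaper one of the two stripes `a + l E` and `a - l E`. -/
def near (C : ZMod n → R) (a E l : ℕ) : R :=
  min (C ((a : ZMod n) + (l : ZMod n) * (E : ZMod n))) (C ((a : ZMod n) - (l : ZMod n) * (E : ZMod n)))

/-- cost of the item of weight `μ` -/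
def item (C : ZMod n → R) (a E μ : ℕ) : R :=
  near C a E (μ + 1) - near C a E 1 - μ • (near C a E 1 - C (a : ZMod n))

/-- The knapsack value of the instance. -/
def knapValue (C : ZMod n → R) (a E g : ℕ) : R :=
  n • C (a : ZMod n) + (2 * g - 2) • (near C a E 1 - C (a : ZMod n)) + knap (item C a E) (g - 2)

omit [IsOrderedAddMonoid R] in
lemma near_zero (C : ZMod n → R) (a E : ℕ) : near C a E 0 = C (a : ZMod n) := by simp [near]

omit [IsOrderedAddMonoid R] in
lemma item_zero (C : ZMod n → R) (a E : ℕ) : item C a E 0 = 0 := by simp [item]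

omit [IsOrderedAddMonoid R] in
lemma near_eq (C : ZMod n → R) (a E l : ℕ) :
    near C a E l = C (a : ZMod n) + item C a E (l - 1) + l • (near C a E 1 - C (a : ZMod n)) := by
  cases l with
  | zero => simp [near_zero, item_zero]
  | succ l =>
    simp only [Nat.add_sub_cancel, item, succ_nsmul]
    abel

variable [NeZero n] (C : ZMod n → R) {g q a E : ℕ}

/-- The class of cost functions of the knapsack theorem. `C x` is the cost of the edges `{i, j}` with
`i - j = x`; `D l = near C a E l` is the cost of the cheaper of the stripes `a + l E`, `a - l E`.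
* `symm`: the costs are symmetric;
* `first`: `C a ≤ D 1`;
* `step`: for `2 ≤ l < g`, `D l` is at least `D (l - 1)` or at least `C a + (l - 1) (D 1 - C a)`;
* `far`: if `x ≠ 0` is congruent to `g + l E` or `g - l E` modulo `2 g`, where `l ≤ g`, then `x`
  costs at least `D (min l (g - 1))`. -/
structure KnapsackClass (C : ZMod n → R) (a E g : ℕ) : Prop where
  symm : ∀ x, C (-x) = C x
  first : C (a : ZMod n) ≤ near C a E 1
  step : ∀ l, 2 ≤ l → l ≤ g - 1 → near C a E (l - 1) ≤ near C a E l ∨
      C (a : ZMod n) + (l - 1) • (near C a E 1 - C (a : ZMod n)) ≤ near C a E l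
  far : ∀ x : ZMod n, x ≠ 0 → ∀ l ≤ g, ((2 * g : ℤ) ∣ (x.val : ℤ) - g - l * E ∨
      (2 * g : ℤ) ∣ (x.val : ℤ) - g + l * E) → near C a E (min l (g - 1)) ≤ C x

/-- Lower bound for every tour. -/
theorem core_lower (hg : 2 ≤ g) (hn : n = 2 * q * g) (hE : Nat.Coprime E (2 * g))
    (h1 : C (a : ZMod n) ≤ near C a E 1)
    (h2 : ∀ l, 2 ≤ l → l ≤ g - 1 → near C a E (l - 1) ≤ near C a E l ∨
      C (a : ZMod n) + (l - 1) • (near C a E 1 - C (a : ZMod n)) ≤ near C a E l)
    (h3 : ∀ x : ZMod n, x ≠ 0 → ∀ l ≤ g, ((2 * g : ℤ) ∣ (x.val : ℤ) - g - l * E ∨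
      (2 * g : ℤ) ∣ (x.val : ℤ) - g + l * E) → near C a E (min l (g - 1)) ≤ C x)
    (v : Equiv.Perm (ZMod n)) : knapValue C a E g ≤ tourCost C v := by
  classical
  set δ : R := near C a E 1 - C (a : ZMod n) with hδ
  have hδ0 : 0 ≤ δ := sub_nonneg.2 h1
  have hnpos : 0 < n := Nat.pos_of_ne_zero (NeZero.ne n)
  have hn2 : 2 ≤ n := by
    have hq : 0 < q := by
      rcases Nat.eq_zero_or_pos q with h | h
      · subst h; simp at hn; omega
      · exact h
    have : 1 * 1 ≤ q * g := Nat.mul_le_mul hq (by omega)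
    have e : n = 2 * (q * g) := by rw [hn]; ring
    omega
  -- steps are nonzero
  have hstep : ∀ i : ZMod n, v (i + 1) - v i ≠ 0 := by
    intro i h
    rw [sub_eq_zero] at h
    have h4 := v.injective h
    have h5 : (1 : ZMod n) = 0 := by
      have : i + 1 - i = i - i := by rw [h4]
      simpa using this
    have h6 : ((1 : ℕ) : ZMod n) = 0 := by simpa using h5
    rw [ZMod.natCast_eq_zero_iff] at h6
    have := Nat.le_of_dvd (by omega) h6
    omega
  -- normalisation by a unit
  have h2gn : 2 * g ∣ n := ⟨q, by rw [hn]; ring⟩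
  have : NeZero (2 * g) := ⟨by omega⟩
  obtain ⟨u, hu⟩ := ZMod.unitsMap_surjective h2gn (ZMod.unitOfCoprime E hE)
  have huE : ZMod.castHom h2gn (ZMod (2 * g)) (u : ZMod n) = (E : ZMod (2 * g)) := by
    have := congrArg (fun z : (ZMod (2 * g))ˣ => (z : ZMod (2 * g))) hu
    simpa [ZMod.unitsMap, ZMod.coe_unitOfCoprime] using this
  set w : Equiv.Perm (ZMod n) := v.trans (Units.mulLeft u⁻¹) with hw
  have hwstep : ∀ i, v (i + 1) - v i = (u : ZMod n) * (w (i + 1) - w i) := by
    intro i
    simp only [hw, Equiv.trans_apply, Units.mulLeft_apply]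
    rw [← mul_sub, ← mul_assoc, Units.mul_inv, one_mul]
  set o : ZMod n → ℕ := fun i => offset g (w (i + 1) - w i).val with ho
  set l : ZMod n → ℕ := fun i => min (o i) (g - 1) with hl
  have hcost : ∑ i : ZMod n, near C a E (l i) ≤ tourCost C v := by
    refine Finset.sum_le_sum fun i _ => ?_
    set x := v (i + 1) - v i with hx
    set y := w (i + 1) - w i with hy
    have hxy : x = (u : ZMod n) * y := hwstep i
    have hmod : (2 * g : ℤ) ∣ (x.val : ℤ) - E * y.val := by
      have e1 : ((x.val : ℕ) : ZMod (2 * g)) = (E : ZMod (2 * g)) * ((y.val : ℕ) : ZMod (2 * g)) := by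
        have e2 := congrArg (ZMod.castHom h2gn (ZMod (2 * g))) hxy
        rw [map_mul, huE] at e2
        simp only [ZMod.castHom_apply] at e2
        rw [ZMod.natCast_val, ZMod.natCast_val]
        exact e2
      have e3 : (((x.val : ℤ) - E * y.val : ℤ) : ZMod (2 * g)) = 0 := by
        push_cast
        rw [e1, sub_self]
      have e4 := (ZMod.intCast_zmod_eq_zero_iff_dvd _ _).1 e3
      push_cast at e4
      exact e4
    have hodd : (2 : ℤ) ∣ (E : ℤ) - 1 := by
      have : Nat.Coprime E 2 := Nat.Coprime.coprime_mul_right_right hE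
      have h5 : E % 2 = 1 := by
        rcases Nat.mod_two_eq_zero_or_one E with h | h
        · exfalso
          have h6 : 2 ∣ Nat.gcd E 2 := Nat.dvd_gcd (Nat.dvd_of_mod_eq_zero h) (dvd_refl 2)
          rw [this] at h6
          omega
        · exact h
      omega
    have hEg : (2 * g : ℤ) ∣ ((E : ℤ) - 1) * g := mul_dvd_mul_right hodd _
    have hom : (2 * g : ℤ) ∣ (y.val : ℤ) - g - (o i : ℤ) ∨ (2 * g : ℤ) ∣ (y.val : ℤ) - g + (o i : ℤ) := by
      have e5 : (2 * g : ℤ) ∣ (y.val : ℤ) - ((y.val % (2 * g) : ℕ) : ℤ) := by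
        have h0 := Nat.div_add_mod y.val (2 * g)
        refine ⟨((y.val / (2 * g) : ℕ) : ℤ), ?_⟩
        have h1 : ((2 * g * (y.val / (2 * g)) + y.val % (2 * g) : ℕ) : ℤ) = (y.val : ℤ) := by
          rw [h0]
        rw [Nat.cast_add, Nat.cast_mul] at h1
        have h2 : ((2 * g : ℕ) : ℤ) = 2 * (g : ℤ) := by push_cast; ring
        rw [← h2]
        linarith
      have e6 : (o i : ℤ) = ((y.val % (2 * g) : ℕ) : ℤ) - g ∨
          (o i : ℤ) = -(((y.val % (2 * g) : ℕ) : ℤ) - g) := by
        simp only [ho, offset]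
        exact Int.natAbs_eq_iff.1 rfl |>.imp (fun h => by rw [← h]) (fun h => by rw [h]; simp)
      rcases e6 with e6 | e6
      · left; rw [e6]; convert e5 using 1; ring
      · right; rw [e6]; convert e5 using 1; ring
    have hol : o i ≤ g := by
      simp only [ho, offset]
      have := Nat.mod_lt (w (i + 1) - w i).val (show 0 < 2 * g by omega)
      omega
    refine h3 x (hstep i) (o i) hol ?_
    rcases hom with h | h
    · left
      have e7 : (x.val : ℤ) - g - o i * E = ((x.val : ℤ) - E * y.val) + E * ((y.val : ℤ) - g - o i)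
        + ((E : ℤ) - 1) * g := by ring
      rw [e7]
      exact dvd_add (dvd_add hmod (Dvd.dvd.mul_left h _)) hEg
    · right
      have e7 : (x.val : ℤ) - g + o i * E = ((x.val : ℤ) - E * y.val) + E * ((y.val : ℤ) - g + o i)
        + ((E : ℤ) - 1) * g := by ring
      rw [e7]
      exact dvd_add (dvd_add hmod (Dvd.dvd.mul_left h _)) hEg
  have hsum : ∑ i : ZMod n, near C a E (l i) = n • C (a : ZMod n) +
      ∑ i : ZMod n, item C a E (l i - 1) + (∑ i : ZMod n, l i) • δ := by
    rw [Finset.sum_congr rfl fun i _ => near_eq C a E (l i), Finset.sum_add_distrib,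
      Finset.sum_add_distrib]
    congr 1
    · congr 1
      simp [ZMod.card]
    · rw [← Finset.sum_nsmul_assoc]
  -- at least g long steps
  set F : Finset (ZMod n) := Finset.univ.filter (fun i => 1 ≤ l i) with hF
  have hFcard : g ≤ F.card := by
    refine (card_leave hg ⟨2 * q, by rw [hn]; ring⟩ w).trans (Finset.card_le_card ?_)
    intro i hi
    rw [Finset.mem_filter] at hi ⊢
    refine ⟨Finset.mem_univ _, ?_⟩
    have := offset_ne_zero hi.2
    simp only [hl, ho]
    omega
  -- total offset
  have hΛ : 2 * g - 2 ≤ ∑ i : ZMod n, l i := by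
    by_cases hbig : ∃ i0, g - 1 < o i0
    · obtain ⟨i0, hi0⟩ := hbig
      have h4 : l i0 = g - 1 := by simp only [hl]; omega
      have h5 : ∑ i : ZMod n, l i = l i0 + ∑ i ∈ Finset.univ.erase i0, l i := by
        rw [Finset.add_sum_erase _ _ (Finset.mem_univ i0)]
      have h6 : g - 1 ≤ ∑ i ∈ Finset.univ.erase i0, l i := by
        calc g - 1 ≤ (F.erase i0).card := by
              have := Finset.pred_card_le_card_erase (s := F) (a := i0)
              omega
          _ = ∑ i ∈ F.erase i0, 1 := by simp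
          _ ≤ ∑ i ∈ F.erase i0, l i := Finset.sum_le_sum fun i hi => by
              have := (Finset.mem_filter.1 (Finset.mem_of_mem_erase hi)).2
              exact this
          _ ≤ ∑ i ∈ Finset.univ.erase i0, l i := by
              refine Finset.sum_le_sum_of_subset ?_
              exact Finset.erase_subset_erase _ (Finset.subset_univ _)
      omega
    · push Not at hbig
      have h4 : ∑ i : ZMod n, l i = ∑ i : ZMod n, o i := by
        refine Finset.sum_congr rfl fun i _ => ?_
        simp only [hl]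
        exact min_eq_left (hbig i)
      rw [h4]
      exact parity_inequality (by omega) hn w
  -- the multiset of weights
  set S : Multiset ℕ := (Finset.univ : Finset (ZMod n)).val.map (fun i => l i - 1) with hS
  have hSsum : S.sum + F.card = ∑ i : ZMod n, l i := by
    have e1 : S.sum = ∑ i : ZMod n, (l i - 1) := rfl
    have e2 : F.card = ∑ i : ZMod n, (if 1 ≤ l i then 1 else 0) := by
      rw [hF, Finset.card_filter]
    rw [e1, e2, ← Finset.sum_add_distrib]
    refine Finset.sum_congr rfl fun i _ => ?_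
    split_ifs with h <;> omega
  have hSitem : (S.map (item C a E)).sum = ∑ i : ZMod n, item C a E (l i - 1) := by
    rw [hS, Multiset.map_map]; rfl
  obtain ⟨X, hX⟩ : ∃ X, ∑ i : ZMod n, l i = (2 * g - 2) + X := ⟨_, (Nat.add_sub_cancel' hΛ).symm⟩
  have hred := knap_le_reduce (item C a E) (item_zero C a E) hδ0 (B := g - 2) (by
    intro μ hμ hμB
    rcases h2 (μ + 1) (by omega) (by omega) with h | h
    · left
      simp only [Nat.add_sub_cancel] at h
      obtain ⟨ν, rfl⟩ : ∃ ν, μ = ν + 1 := ⟨μ - 1, by omega⟩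
      simp only [item, Nat.add_sub_cancel, succ_nsmul]
      rw [← hδ]
      have : near C a E (ν + 1) - near C a E 1 - ν • δ ≤ near C a E (ν + 1 + 1) - near C a E 1 - ν • δ := by
        gcongr
      calc _ ≤ _ := this
        _ = _ := by abel
    · right
      simp only [Nat.add_sub_cancel] at h
      simp only [item]
      rw [← hδ]
      have h5 : near C a E (μ + 1) - near C a E 1 - μ • δ + δ =
        near C a E (μ + 1) - (C (a : ZMod n) + μ • δ) := by rw [hδ]; abel
      rw [h5]
      exact sub_nonneg.2 h) (g - 2) X S (by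
    intro μ hμ
    obtain ⟨i, _, rfl⟩ := Multiset.mem_map.1 hμ
    simp only [hl]; omega) (by omega)
  unfold knapValue
  rw [hSitem] at hred
  calc n • C (a : ZMod n) + (2 * g - 2) • δ + knap (item C a E) (g - 2)
      ≤ n • C (a : ZMod n) + (2 * g - 2) • δ + (∑ i : ZMod n, item C a E (l i - 1) + X • δ) := by gcongr
    _ = n • C (a : ZMod n) + ∑ i : ZMod n, item C a E (l i - 1) + (∑ i : ZMod n, l i) • δ := by
        rw [hX, add_nsmul]; abel
    _ = ∑ i : ZMod n, near C a E (l i) := hsum.symm
    _ ≤ tourCost C v := hcost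

/-- Upper bound, valid for all symmetric costs. -/
theorem core_upper {r : ℕ} (hg : 2 ≤ g) (hr : 2 ≤ r) (hn : n = r * g) (ha : Nat.gcd a n = g)
    (hE : Nat.Coprime E g) (hC : ∀ x, C (-x) = C x) : ∃ v : Equiv.Perm (ZMod n), tourCost C v = knapValue C a E g := by
  classical
  set δ : R := near C a E 1 - C (a : ZMod n) with hδ
  obtain ⟨T, hT1, hT2, hT3⟩ := knap_attained (item C a E) (g - 2)
  let σ : ℕ → ℤ := fun l => if C ((a : ZMod n) + (l : ZMod n) * (E : ZMod n)) ≤
      C ((a : ZMod n) - (l : ZMod n) * (E : ZMod n))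
    then (l : ℤ) else -(l : ℤ)
  have hσabs : ∀ l, (σ l).natAbs = l := by
    intro l; simp only [σ]; split_ifs <;> simp
  have hσcost : ∀ l, C ((a : ZMod n) + ((σ l : ℤ) : ZMod n) * (E : ZMod n)) = near C a E l := by
    intro l
    simp only [σ, near]
    split_ifs with h
    · rw [min_eq_left h]; simp
    · rw [min_eq_right (le_of_not_ge h)]; congr 1; push_cast; ring
  have hcardT : T.card ≤ T.sum := by
    have := Multiset.card_nsmul_le_sum (s := T) (a := 1) (fun x hx => hT1 x hx)
    simpa using this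
  obtain ⟨u, hu⟩ : ∃ u, u + (T.sum + T.card) = 2 * g - 2 := ⟨2 * g - 2 - (T.sum + T.card), by omega⟩
  set S : Multiset ℤ := T.map (fun μ => σ (μ + 1)) + Multiset.replicate u (σ 1) with hS
  have hS0 : ∀ e ∈ S, e ≠ 0 := by
    intro e he h
    rcases Multiset.mem_add.1 he with he | he
    · obtain ⟨μ, _, rfl⟩ := Multiset.mem_map.1 he
      have := hσabs (μ + 1); rw [h] at this; simp at this
    · have := Multiset.eq_of_mem_replicate he
      have h1 := hσabs 1; rw [← this, h] at h1; simp at h1
  have hSsum : (S.map Int.natAbs).sum = 2 * (g - 1) := by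
    rw [hS, Multiset.map_add, Multiset.sum_add, Multiset.map_map, Multiset.map_replicate,
      Multiset.sum_replicate]
    have e1 : T.map (Int.natAbs ∘ fun μ => σ (μ + 1)) = T.map (fun μ => μ + 1) :=
      Multiset.map_congr rfl fun μ _ => hσabs (μ + 1)
    rw [e1, Multiset.sum_map_add]
    simp [hσabs]
    omega
  have hScard : g ≤ S.card := by
    rw [hS, Multiset.card_add, Multiset.card_map, Multiset.card_replicate]
    omega
  obtain ⟨v, hv⟩ := realize (E := E) C hn hg ha hE hr hC S hS0 hSsum hScard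
  refine ⟨v, ?_⟩
  rw [hv]
  unfold knapValue
  rw [← hδ, ← hT3, add_assoc]
  congr 1
  rw [hS, Multiset.map_add, Multiset.sum_add, Multiset.map_map, Multiset.map_replicate,
      Multiset.sum_replicate]
  have e1 : T.map ((fun e : ℤ => C ((a : ZMod n) + (e : ZMod n) * (E : ZMod n)) - C (a : ZMod n)) ∘
      fun μ => σ (μ + 1)) = T.map (fun μ => item C a E μ + (μ + 1) • δ) := by
    refine Multiset.map_congr rfl fun μ _ => ?_
    simp only [Function.comp]
    rw [hσcost, near_eq C a E (μ + 1), ← hδ, Nat.add_sub_cancel]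
    abel
  rw [e1, Multiset.sum_map_add, hσcost, ← hδ, ← hu, add_nsmul]
  have e2 : (T.map (fun μ => (μ + 1) • δ)).sum = (T.sum + T.card) • δ := by
    clear hu hT1 hT2 hT3 hS hS0 hSsum hScard hv e1 hcardT
    induction T using Multiset.induction_on with
    | empty => simp
    | cons μ T ih =>
      rw [Multiset.map_cons, Multiset.sum_cons, ih, Multiset.sum_cons, Multiset.card_cons,
        ← add_nsmul]
      congr 1; ring
  rw [e2]
  abel

omit [NeZero n] in
lemma exists_two_mul {g : ℕ} (hgn : g ∣ n) (hr : Even (n / g)) : ∃ q, n = 2 * q * g := by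
  obtain ⟨q, hq⟩ := hr
  refine ⟨q, ?_⟩
  have := Nat.div_mul_cancel hgn
  rw [← this, hq]; ring

/-- The knapsack theorem. -/
theorem knapsack_theorem (hg : 2 ≤ g) (ha : Nat.gcd a n = g) (hr : Even (n / g))
    (hE : Nat.Coprime E (2 * g)) (hC : KnapsackClass C a E g) :
    IsLeast (Set.range (tourCost C)) (knapValue C a E g) := by
  obtain ⟨q, hq⟩ := exists_two_mul (ha ▸ Nat.gcd_dvd_right a n) hr
  have hnpos : 0 < n := Nat.pos_of_ne_zero (NeZero.ne n)
  have hqpos : 0 < q := by
    rcases Nat.eq_zero_or_pos q with h | h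
    · subst h; simp at hq; omega
    · exact h
  constructor
  · obtain ⟨v, hv⟩ := core_upper (E := E) (r := 2 * q) C hg (by omega) hq ha
      (Nat.Coprime.coprime_mul_left_right hE) hC.symm
    exact ⟨v, hv⟩
  · rintro _ ⟨v, rfl⟩
    exact core_lower C hg hq hE hC.first hC.step hC.far v

end

end CTSP
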