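import Mathlib
import Pool.Agent.CTSP.Core

/-! Circulant TSP: unimodal costs. -/

namespace CTSP

open Finset

section circ
variable {n : ℕ} [NeZero n]

lemma circLen_neg (x : ZMod n) : circLen n (-x) = circLen n x := by
  unfold circLen
  rw [ZMod.neg_val]
  have h1 := ZMod.val_lt x
  split_ifs with h
  · subst h; simp
  · omega

lemma circLen_pos {x : ZMod n} (hx : x ≠ 0) : 1 ≤ circLen n x := by
  unfold circLen
  have h1 := ZMod.val_lt x
  have h2 : x.val ≠ 0 := by rwa [Ne, ZMod.val_eq_zero]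
  omega

lemma circLen_le (x : ZMod n) : circLen n x ≤ n / 2 := by
  unfold circLen; omega

lemma circLen_natCast {b : ℕ} (hb : b ≤ n / 2) (hn : 2 ≤ n) : circLen n (b : ZMod n) = b := by
  unfold circLen
  rw [ZMod.val_natCast_of_lt (by omega)]
  omega

lemma circLen_cases (x : ZMod n) : circLen n x = x.val ∨ circLen n x + x.val = n := by
  unfold circLen
  have h1 := ZMod.val_lt x
  omega

/-- the offset condition passes from residues to lengths -/
lemma dvd_circLen {g : ℕ} (h2 : (2 * g : ℤ) ∣ (n : ℤ)) (x : ZMod n) (l : ℤ)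
    (h : (2 * g : ℤ) ∣ (x.val : ℤ) - g - l ∨ (2 * g : ℤ) ∣ (x.val : ℤ) - g + l) :
    (2 * g : ℤ) ∣ (circLen n x : ℤ) - g - l ∨ (2 * g : ℤ) ∣ (circLen n x : ℤ) - g + l := by
  rcases circLen_cases x with h1 | h1
  · rw [h1]; exact h
  · have h3 : (circLen n x : ℤ) = n - x.val := by omega
    rw [h3]
    have h4 : (2 * g : ℤ) ∣ 2 * g := dvd_refl _
    rcases h with h | h
    · right
      have e : (n : ℤ) - x.val - g + l = n - ((x.val : ℤ) - g - l) - 2 * g := by ring
      rw [e]; exact dvd_sub (dvd_sub h2 h) h4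
    · left
      have e : (n : ℤ) - x.val - g - l = n - ((x.val : ℤ) - g + l) - 2 * g := by ring
      rw [e]; exact dvd_sub (dvd_sub h2 h) h4

omit [NeZero n] in
lemma le_abs_of_dvd {g : ℕ} {a b l : ℤ} (ha : (2 * g : ℤ) ∣ a - g) (hl : 0 ≤ l) (hlg : l ≤ g)
    (h : (2 * g : ℤ) ∣ b - g - l ∨ (2 * g : ℤ) ∣ b - g + l) : l ≤ |b - a| := by
  obtain ⟨s, hs⟩ := ha
  rcases h with h | h
  · obtain ⟨t, ht⟩ := h
    have e : b - a = l + 2 * g * (t - s) := by linarith
    rw [e]
    rcases lt_trichotomy (t - s) 0 with h0 | h0 | h0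
    · have : 2 * (g : ℤ) * (t - s) ≤ -(2 * g) := by nlinarith
      have h5 : l ≤ -(l + 2 * g * (t - s)) := by linarith
      exact h5.trans (neg_le_abs _)
    · rw [h0]; simp only [mul_zero, add_zero]; exact le_abs_self _
    · have : 0 ≤ 2 * (g : ℤ) * (t - s) := by positivity
      have h5 : l ≤ (l + 2 * g * (t - s)) := by linarith
      exact h5.trans (le_abs_self _)
  · obtain ⟨t, ht⟩ := h
    have e : b - a = -l + 2 * g * (t - s) := by linarith
    rw [e]
    rcases lt_trichotomy (t - s) 0 with h0 | h0 | h0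
    · have : 2 * (g : ℤ) * (t - s) ≤ -(2 * g) := by nlinarith
      have h5 : l ≤ -(-l + 2 * g * (t - s)) := by linarith
      exact h5.trans (neg_le_abs _)
    · rw [h0]; simp only [mul_zero, add_zero]; rw [abs_neg]; exact le_abs_self _
    · have : 2 * (g : ℤ) ≤ 2 * (g : ℤ) * (t - s) := by nlinarith
      have h5 : l ≤ (-l + 2 * g * (t - s)) := by linarith
      exact h5.trans (le_abs_self _)

end circ

section
variable {R : Type*} [AddCommGroup R] [LinearOrder R] [IsOrderedAddMonoid R] {n : ℕ} [NeZero n]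

omit [AddCommGroup R] [IsOrderedAddMonoid R] in
lemma near_le_of_abs (c : ℕ → R) {a b l : ℕ} (hn : 2 ≤ n) (ha : a ≤ n / 2)
    (hdown : ∀ i j, 1 ≤ i → i ≤ j → j ≤ a → c j ≤ c i)
    (hup : ∀ i j, a ≤ i → i ≤ j → j ≤ n / 2 → c i ≤ c j)
    (hb1 : 1 ≤ b) (hb2 : b ≤ n / 2) (hl : (l : ℤ) ≤ |(b : ℤ) - a|) :
    near (fun x : ZMod n => c (circLen n x)) a 1 l ≤ c b := by
  unfold near
  simp only [Nat.cast_one, mul_one]
  rcases le_total a b with h | h
  · have h1 : |(b : ℤ) - a| = (b : ℤ) - a := abs_of_nonneg (by omega)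
    rw [h1] at hl
    refine (min_le_left _ _).trans ?_
    have e : circLen n ((a : ZMod n) + (l : ZMod n)) = a + l := by
      rw [← Nat.cast_add]; exact circLen_natCast (by omega) hn
    rw [e]
    exact hup _ _ (by omega) (by omega) hb2
  · have h1 : |(b : ℤ) - a| = (a : ℤ) - b := by rw [abs_sub_comm]; exact abs_of_nonneg (by omega)
    rw [h1] at hl
    refine (min_le_right _ _).trans ?_
    have e : circLen n ((a : ZMod n) - (l : ZMod n)) = a - l := by
      rw [← Nat.cast_sub (by omega)]; exact circLen_natCast (by omega) hn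
    rw [e]
    exact hdown _ _ hb1 (by omega) (by omega)

omit [IsOrderedAddMonoid R] in
lemma range_tourCost_unit (C : ZMod n → R) (u : (ZMod n)ˣ) :
    Set.range (tourCost (fun x => C ((u : ZMod n) * x))) = Set.range (tourCost C) := by
  have h : ∀ v : Equiv.Perm (ZMod n), tourCost (fun x => C ((u : ZMod n) * x)) v =
      tourCost C (v.trans (Units.mulLeft u)) := by
    intro v
    unfold tourCost
    refine Finset.sum_congr rfl fun i _ => ?_
    simp [mul_sub]
  ext z
  constructor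
  · rintro ⟨v, rfl⟩
    exact ⟨_, (h v).symm⟩
  · rintro ⟨v, rfl⟩
    refine ⟨v.trans (Units.mulLeft u⁻¹), ?_⟩
    rw [h]
    congr 1
    ext i
    simp

/-- Unimodal costs, `g ≥ 2`, belong to the class. -/
theorem unimodal_class {g a : ℕ} (c : ℕ → R) (hg : 2 ≤ g)
    (ha : Nat.gcd a n = g) (hr' : Even (n / g)) (ha2 : a ≤ n / 2)
    (hdown : ∀ i j, 1 ≤ i → i ≤ j → j ≤ a → c j ≤ c i)
    (hup : ∀ i j, a ≤ i → i ≤ j → j ≤ n / 2 → c i ≤ c j) :
    KnapsackClass (fun x : ZMod n => c (circLen n x)) a 1 g := by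
  obtain ⟨q, hn'⟩ := exists_two_mul (ha ▸ Nat.gcd_dvd_right a n) hr'
  have hnpos : 0 < n := Nat.pos_of_ne_zero (NeZero.ne n)
  obtain ⟨r, hq⟩ : ∃ r, r = q + q := ⟨_, rfl⟩
  have hn : n = r * g := by rw [hn', hq]; ring
  have hqpos : 0 < q := by
    rcases Nat.eq_zero_or_pos q with h | h
    · subst h; simp at hn'; omega
    · exact h
  have hr2 : 2 ≤ r := by omega
  have hn2 : 2 ≤ n := by
    have : 1 * 1 ≤ q * g := Nat.mul_le_mul hqpos (by omega)
    have e : n = 2 * (q * g) := by rw [hn']; ring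
    omega
  have h2g : (2 * g : ℤ) ∣ (n : ℤ) := ⟨q, by rw [hn']; push_cast; ring⟩
  -- `a` is an odd multiple of `g`
  have hga : g ∣ a := ha ▸ Nat.gcd_dvd_left a n
  obtain ⟨b, hb⟩ := hga
  have hcop : Nat.Coprime b r := by
    have : g * Nat.gcd b r = g := by
      rw [← Nat.gcd_mul_left, ← hb, mul_comm g r, ← hn, ha]
    have h' : g * Nat.gcd b r = g * 1 := by rw [this, mul_one]
    exact Nat.eq_of_mul_eq_mul_left (by omega) h'
  have hbodd : b % 2 = 1 := by
    rcases Nat.mod_two_eq_zero_or_one b with h | h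
    · exfalso
      have h6 : 2 ∣ Nat.gcd b r := Nat.dvd_gcd (Nat.dvd_of_mod_eq_zero h) ⟨q, by omega⟩
      rw [hcop] at h6
      omega
    · exact h
  have ha2g : (2 * g : ℤ) ∣ (a : ℤ) - g := by
    obtain ⟨t, ht⟩ : ∃ t, b = 2 * t + 1 := ⟨b / 2, by omega⟩
    exact ⟨t, by rw [hb, ht]; push_cast; ring⟩
  have hapos : 1 ≤ a := by
    rcases Nat.eq_zero_or_pos a with h | h
    · subst h; rw [Nat.gcd_zero_left] at ha
      have : n = 2 * q * n := by rw [← ha] at hn'; exact_mod_cast (by rw [ha] at hn'; rw [ha]; exact hn')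
      have h1 : 2 * n ≤ 2 * q * n := Nat.mul_le_mul_right _ (by omega)
      omega
    · exact h
  have hCa : circLen n (a : ZMod n) = a := circLen_natCast ha2 hn2
  have hmin : ∀ j, 1 ≤ j → j ≤ n / 2 → c a ≤ c j := by
    intro j hj1 hj2
    rcases le_total a j with h | h
    · exact hup a j (le_refl _) h hj2
    · exact hdown j a hj1 h (le_refl _)
  -- the residues `a ± l`
  have hne : ∀ l : ℕ, 1 ≤ l → l ≤ g - 1 → ∀ s : ℤ, (s = l ∨ s = -l) →
      (a : ZMod n) + (s : ZMod n) ≠ 0 := by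
    intro l hl1 hl2 s hs h
    have h1 : (((a : ℤ) + s : ℤ) : ZMod n) = 0 := by push_cast; exact h
    rw [ZMod.intCast_zmod_eq_zero_iff_dvd] at h1
    have h2 : (g : ℤ) ∣ (a : ℤ) + s := by
      refine dvd_trans ?_ h1
      exact ⟨2 * q, by rw [hn']; push_cast; ring⟩
    have h3 : (g : ℤ) ∣ (a : ℤ) := ⟨b, by rw [hb]; push_cast; ring⟩
    have h4 : (g : ℤ) ∣ s := (dvd_add_right h3).1 h2
    have h5 : |s| < g := by
      rcases hs with rfl | rfl
      · rw [abs_of_nonneg (by omega)]; omega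
      · rw [abs_neg, abs_of_nonneg (by omega)]; omega
    have h6 := Int.eq_zero_of_abs_lt_dvd h4 h5
    omega
  have hoff : ∀ l : ℕ, l ≤ g - 1 → ∀ s : ℤ, (s = l ∨ s = -l) →
      (l : ℤ) ≤ |(circLen n ((a : ZMod n) + (s : ZMod n)) : ℤ) - a| := by
    intro l hl2 s hs
    refine le_abs_of_dvd ha2g (by omega) (by omega) (dvd_circLen h2g _ _ ?_)
    have h1 : (n : ℤ) ∣ ((((a : ZMod n) + (s : ZMod n)).val : ℕ) : ℤ) - ((a : ℤ) + s) := by
      rw [← ZMod.intCast_zmod_eq_zero_iff_dvd]
      push_cast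
      rw [ZMod.natCast_zmod_val]; ring
    have h2 := h2g.trans h1
    rcases hs with rfl | rfl
    · left
      have e : ((((a : ZMod n) + ((l : ℤ) : ZMod n)).val : ℕ) : ℤ) - g - l =
        (((((a : ZMod n) + ((l : ℤ) : ZMod n)).val : ℕ) : ℤ) - ((a : ℤ) + l)) + ((a : ℤ) - g) := by ring
      rw [e]; exact dvd_add h2 ha2g
    · right
      have e : ((((a : ZMod n) + ((-(l : ℤ) : ℤ) : ZMod n)).val : ℕ) : ℤ) - g + l =
        (((((a : ZMod n) + ((-(l : ℤ) : ℤ) : ZMod n)).val : ℕ) : ℤ) - ((a : ℤ) + -l)) + ((a : ℤ) - g) := by ring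
      rw [e]; exact dvd_add h2 ha2g
  have hnearge : ∀ l m : ℕ, 1 ≤ l → l ≤ g - 1 → m ≤ l →
      near (fun x : ZMod n => c (circLen n x)) a 1 m ≤ near (fun x : ZMod n => c (circLen n x)) a 1 l := by
    intro l m hl1 hl2 hml
    conv_rhs => unfold near
    simp only [Nat.cast_one, mul_one]
    refine le_min ?_ ?_
    · have e : (a : ZMod n) + (l : ZMod n) = (a : ZMod n) + ((l : ℤ) : ZMod n) := by push_cast; rfl
      rw [e]
      refine near_le_of_abs c hn2 ha2 hdown hup (circLen_pos (hne l hl1 hl2 _ (Or.inl rfl)))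
        (circLen_le _) ?_
      have := hoff l hl2 _ (Or.inl rfl)
      omega
    · have e : (a : ZMod n) - (l : ZMod n) = (a : ZMod n) + ((-(l : ℤ) : ℤ) : ZMod n) := by
        push_cast; ring
      rw [e]
      refine near_le_of_abs c hn2 ha2 hdown hup (circLen_pos (hne l hl1 hl2 _ (Or.inr rfl)))
        (circLen_le _) ?_
      have := hoff l hl2 _ (Or.inr rfl)
      omega
  refine ⟨fun x => by simp only [circLen_neg], ?_, ?_, ?_⟩
  · have := hnearge 1 0 (le_refl _) (by omega) (by omega)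
    rwa [near_zero] at this
  · intro l hl1 hl2
    left
    exact hnearge l (l - 1) (by omega) hl2 (by omega)
  · intro x hx l hl hd
    refine near_le_of_abs c hn2 ha2 hdown hup (circLen_pos hx) (circLen_le _) ?_
    have h1 : (l : ℤ) ≤ |(circLen n x : ℤ) - a| := by
      refine le_abs_of_dvd ha2g (by omega) (by omega) (dvd_circLen h2g _ _ ?_)
      simpa using hd
    have h2 : ((min l (g - 1) : ℕ) : ℤ) ≤ l := by
      have := min_le_left l (g - 1)
      omega
    exact h2.trans h1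

/-- Unimodal costs, `gcd(a, n) = 1`. -/
theorem unimodal_one {a : ℕ} (c : ℕ → R) (hn : 2 ≤ n) (ha : Nat.gcd a n = 1) (ha2 : a ≤ n / 2)
    (hmin : ∀ j, 1 ≤ j → j ≤ n / 2 → c a ≤ c j) :
    IsLeast (Set.range (tourCost (fun x : ZMod n => c (circLen n x)))) (n • c a) := by
  have hCa : circLen n (a : ZMod n) = a := circLen_natCast ha2 hn
  constructor
  · refine ⟨Units.mulLeft (ZMod.unitOfCoprime a ha), ?_⟩
    unfold tourCost
    have : ∀ i : ZMod n, c (circLen n ((Units.mulLeft (ZMod.unitOfCoprime a ha)) (i + 1) -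
        (Units.mulLeft (ZMod.unitOfCoprime a ha)) i)) = c a := by
      intro i
      have e : (Units.mulLeft (ZMod.unitOfCoprime a ha)) (i + 1) -
        (Units.mulLeft (ZMod.unitOfCoprime a ha)) i = (a : ZMod n) := by
        simp only [Units.mulLeft_apply, ZMod.coe_unitOfCoprime]
        ring
      rw [e, hCa]
    rw [Finset.sum_congr rfl fun i _ => this i]
    simp [ZMod.card]
  · rintro _ ⟨v, rfl⟩
    unfold tourCost
    have hstep : ∀ i : ZMod n, v (i + 1) - v i ≠ 0 := by
      intro i h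
      rw [sub_eq_zero] at h
      have h4 := v.injective h
      have h5 : (1 : ZMod n) = 0 := by
        have : i + 1 - i = i - i := by rw [h4]
        simpa using this
      have h6 : ((1 : ℕ) : ZMod n) = 0 := by simpa using h5
      rw [ZMod.natCast_eq_zero_iff] at h6
      have := Nat.le_of_dvd (by omega) h6
      omega
    calc n • c a = ∑ _i : ZMod n, c a := by simp [ZMod.card]
      _ ≤ _ := Finset.sum_le_sum fun i _ => hmin _ (circLen_pos (hstep i)) (circLen_le _)

end

end CTSP
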