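import Mathlib
import Pool.Agent.CTSP.Unimodal

/-! Circulant TSP: reduction from unbounded knapsack, and the table of the recursion. -/

namespace CTSP

open Finset

/-- The bottom-up table of the recursion `knap`, together with a counter of the arithmetic
operations (additions and comparisons) used: `knapTable e W = ([V W, V (W-1), ..., V 0], count)`. -/
def knapTable {R : Type*} [AddCommGroup R] [LinearOrder R] (e : ℕ → R) : ℕ → List R × ℕ
  | 0 => ([0], 0)
  | W + 1 =>
    let T := knapTable e W
    -- `W + 1` additions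
    let cand := List.zipWith (fun j x => e (j + 1) + x) (List.range (W + 1)) T.1
    -- `W + 1` comparisons
    let new := cand.foldr min (T.1.headD 0)
    (new :: T.1, T.2 + cand.length + cand.length)

lemma knapTable_spec {R : Type*} [AddCommGroup R] [LinearOrder R] (e : ℕ → R) (W : ℕ) :
    (knapTable e W).1 = (List.range (W + 1)).map (fun j => knap e (W - j)) ∧
      (knapTable e W).2 = W * (W + 1) := by
  induction W with
  | zero => simp [knapTable, knap]
  | succ W ih =>
    obtain ⟨h1, h2⟩ := ih
    have hcand : List.zipWith (fun j x => e (j + 1) + x) (List.range (W + 1)) (knapTable e W).1 =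
        (List.range (W + 1)).map (fun j => e (j + 1) + knap e (W - j)) := by
      rw [h1, List.zipWith_map_right, List.zipWith_self]
    have hhead : (knapTable e W).1.headD 0 = knap e W := by
      rw [h1, List.range_succ_eq_map]; simp
    have hfin : (List.finRange (W + 1)).map (fun j => e (j.val + 1) + knap e (W - j.val)) =
        (List.range (W + 1)).map (fun j => e (j + 1) + knap e (W - j)) := by
      rw [← List.map_coe_finRange_eq_range (n := W + 1), List.map_map]; rfl
    constructor
    · have : (knapTable e (W + 1)).1 = (List.zipWith (fun j x => e (j + 1) + x) (List.range (W + 1))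
          (knapTable e W).1).foldr min ((knapTable e W).1.headD 0) :: (knapTable e W).1 := rfl
      rw [this, hcand, hhead, h1, List.range_succ_eq_map (n := W + 1), List.map_cons, List.map_map]
      congr 1
      · rw [Nat.sub_zero, knap, hfin]
      · refine List.map_congr_left fun j _ => ?_
        simp only [Function.comp]
        congr 1
        omega
    · have : (knapTable e (W + 1)).2 = (knapTable e W).2 + (List.zipWith (fun j x => e (j + 1) + x)
          (List.range (W + 1)) (knapTable e W).1).length + (List.zipWith (fun j x => e (j + 1) + x)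
          (List.range (W + 1)) (knapTable e W).1).length := rfl
      rw [this, hcand, h2]
      simp
      ring

lemma sum_map_neg_cast (T : Multiset ℕ) (p : ℕ → ℕ) :
    (T.map (fun μ => -((p μ : ℕ) : ℤ))).sum = -(((T.map p).sum : ℕ) : ℤ) := by
  induction T using Multiset.induction_on with
  | empty => simp
  | cons j T ih => simp only [Multiset.map_cons, Multiset.sum_cons, ih]; push_cast; ring

/-- The cost vectors of the reduction. -/
def EncodesKnapsack (W : ℕ) (I : Finset ℕ) (p : ℕ → ℕ) (M : ℕ) (c : ℕ → ℤ) : Prop :=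
  c (W + 2) = 0 ∧ c (W + 1) = M ∧
    (∀ μ ∈ I, c (W + 1 - μ) = ((μ : ℤ) + 1) * M - p μ) ∧
    (∀ μ ∈ Finset.Icc 1 W, μ ∉ I → ((μ : ℤ) + 1) * M ≤ c (W + 1 - μ))

theorem knapsack_reduction (W : ℕ) (I : Finset ℕ) (hI : I ⊆ Finset.Icc 1 W) (p : ℕ → ℕ) (M : ℕ)
    (hp : ∀ μ ∈ I, p μ ≤ M) (c : ℕ → ℤ) (hc : EncodesKnapsack W I p M c) (n : ℕ) [NeZero n]
    (hn : n = 2 * W + 4) (P : ℤ) :
    (∃ v : Equiv.Perm (ZMod n), tourCost (fun x : ZMod n => c (circLen n x)) v ≤
      (2 * (W : ℤ) + 2) * M - P) ↔
    ∃ T : Multiset ℕ, (∀ μ ∈ T, μ ∈ I) ∧ T.sum ≤ W ∧ P ≤ ((T.map p).sum : ℕ) := by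
  obtain ⟨hc0, hc1, hcI, hcN⟩ := hc
  have hn' : n = 2 * 1 * (W + 2) := by omega
  have ha : Nat.gcd (W + 2) n = W + 2 := Nat.gcd_eq_left ⟨2, by omega⟩
  have hn2 : 2 ≤ n := by omega
  set C : ZMod n → ℤ := fun x => c (circLen n x) with hC
  have hnear : ∀ l, l ≤ W + 1 → near C (W + 2) 1 l = c (W + 2 - l) := by
    intro l hl
    unfold near
    have h1 : circLen n (((W + 2 : ℕ) : ZMod n) + (l : ZMod n) * ((1 : ℕ) : ZMod n)) = W + 2 - l := by
      have e : ((W + 2 : ℕ) : ZMod n) + (l : ZMod n) * ((1 : ℕ) : ZMod n) =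
          ((W + 2 + l : ℕ) : ZMod n) := by push_cast; ring
      rw [e]
      unfold circLen
      rw [ZMod.val_natCast_of_lt (by omega)]
      omega
    have h2 : circLen n (((W + 2 : ℕ) : ZMod n) - (l : ZMod n) * ((1 : ℕ) : ZMod n)) = W + 2 - l := by
      have e : ((W + 2 : ℕ) : ZMod n) - (l : ZMod n) * ((1 : ℕ) : ZMod n) =
          ((W + 2 - l : ℕ) : ZMod n) := by rw [Nat.cast_sub (by omega)]; push_cast; ring
      rw [e]
      exact circLen_natCast (by omega) hn2
    rw [hC]
    simp only
    rw [h1, h2, min_self]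
  have hCa : C ((W + 2 : ℕ) : ZMod n) = 0 := by
    have := hnear 0 (by omega)
    rw [near_zero] at this
    rw [this, Nat.sub_zero, hc0]
  have hδ : near C (W + 2) 1 1 = M := by
    rw [hnear 1 (by omega)]
    have : W + 2 - 1 = W + 1 := by omega
    rw [this, hc1]
  have hitem : ∀ μ, μ ≤ W → item C (W + 2) 1 μ = c (W + 1 - μ) - ((μ : ℤ) + 1) * M := by
    intro μ hμ
    unfold item
    rw [hCa, hδ, hnear (μ + 1) (by omega)]
    have : W + 2 - (μ + 1) = W + 1 - μ := by omega
    rw [this, nsmul_eq_mul]
    ring
  have hitemI : ∀ μ ∈ I, item C (W + 2) 1 μ = -(p μ : ℤ) := by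
    intro μ hμ
    have := Finset.mem_Icc.1 (hI hμ)
    rw [hitem μ this.2, hcI μ hμ]; ring
  have hitemN : ∀ μ, 1 ≤ μ → μ ≤ W → μ ∉ I → 0 ≤ item C (W + 2) 1 μ := by
    intro μ h1 h2 h3
    rw [hitem μ h2]
    have := hcN μ (Finset.mem_Icc.2 ⟨h1, h2⟩) h3
    linarith
  have hvalue : knapValue C (W + 2) 1 (W + 2) =
      (2 * (W : ℤ) + 2) * M + knap (item C (W + 2) 1) W := by
    unfold knapValue
    rw [hCa, hδ]
    have e1 : 2 * (W + 2) - 2 = 2 * W + 2 := by omega
    have e2 : W + 2 - 2 = W := by omega
    rw [e1, e2, nsmul_eq_mul]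
    simp
  have hleast : IsLeast (Set.range (tourCost C)) (knapValue C (W + 2) 1 (W + 2)) := by
    constructor
    · obtain ⟨v, hv⟩ := core_upper (E := 1) C (show 2 ≤ W + 2 by omega) (le_refl 2) (by omega) ha
        (Nat.coprime_one_left _) (fun x => by rw [hC]; simp only [circLen_neg])
      exact ⟨v, hv⟩
    · rintro _ ⟨v, rfl⟩
      refine core_lower C (show 2 ≤ W + 2 by omega) hn' (Nat.coprime_one_left _) ?_ ?_ ?_ v
      · rw [hCa, hδ]; positivity
      · intro l hl1 hl2
        right
        rw [hCa, hδ, hnear l (by omega), nsmul_eq_mul]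
        obtain ⟨μ, rfl⟩ : ∃ μ, l = μ + 1 := ⟨l - 1, by omega⟩
        have e : W + 2 - (μ + 1) = W + 1 - μ := by omega
        rw [e, Nat.add_sub_cancel]
        by_cases hμ : μ ∈ I
        · rw [hcI μ hμ]
          have h1 : (p μ : ℤ) ≤ M := by exact_mod_cast hp μ hμ
          linarith
        · have h1 := hcN μ (Finset.mem_Icc.2 ⟨by omega, by omega⟩) hμ
          have h2 : (0 : ℤ) ≤ M := by positivity
          linarith
      · intro x hx l hl hd
        have hval : x.val < n := ZMod.val_lt x
        have hval0 : x.val ≠ 0 := by rwa [Ne, ZMod.val_eq_zero]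
        have h1 : l ≤ W + 1 ∧ circLen n x = W + 2 - l := by
          have hd' : (2 * ((W : ℤ) + 2)) ∣ (x.val : ℤ) - ((W : ℤ) + 2) - l ∨
              (2 * ((W : ℤ) + 2)) ∣ (x.val : ℤ) - ((W : ℤ) + 2) + l := by
            simpa using hd
          rcases hd' with ⟨t, ht⟩ | ⟨t, ht⟩
          · have ht0 : t = 0 ∨ t = -1 := by
              have h5 : t < 1 := by
                by_contra hcon
                push Not at hcon
                have : 2 * ((W : ℤ) + 2) * 1 ≤ 2 * ((W : ℤ) + 2) * t :=
                  mul_le_mul_of_nonneg_left hcon (by positivity)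
                omega
              have h6 : -2 < t := by
                by_contra hcon
                push Not at hcon
                have : 2 * ((W : ℤ) + 2) * t ≤ 2 * ((W : ℤ) + 2) * (-2) :=
                  mul_le_mul_of_nonneg_left hcon (by positivity)
                omega
              omega
            rcases ht0 with rfl | rfl
            · have h7 : (x.val : ℤ) = (W : ℤ) + 2 + l := by linarith
              unfold circLen
              omega
            · have h7 : (x.val : ℤ) = (l : ℤ) - ((W : ℤ) + 2) := by linarith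
              omega
          · have ht0 : t = 0 ∨ t = 1 := by
              have h5 : t < 2 := by
                by_contra hcon
                push Not at hcon
                have : 2 * ((W : ℤ) + 2) * 2 ≤ 2 * ((W : ℤ) + 2) * t :=
                  mul_le_mul_of_nonneg_left hcon (by positivity)
                omega
              have h6 : -1 < t := by
                by_contra hcon
                push Not at hcon
                have : 2 * ((W : ℤ) + 2) * t ≤ 2 * ((W : ℤ) + 2) * (-1) :=
                  mul_le_mul_of_nonneg_left hcon (by positivity)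
                omega
              omega
            rcases ht0 with rfl | rfl
            · have h7 : (x.val : ℤ) = (W : ℤ) + 2 - l := by linarith
              unfold circLen
              omega
            · have h7 : (x.val : ℤ) = 2 * ((W : ℤ) + 2) + ((W : ℤ) + 2) - l := by linarith
              omega
        obtain ⟨h2, h3⟩ := h1
        have e : min l (W + 2 - 1) = l := by omega
        rw [e, hnear l h2]
        change c (W + 2 - l) ≤ c (circLen n x)
        rw [h3]
  constructor
  · rintro ⟨v, hv⟩
    have h1 := hleast.2 ⟨v, rfl⟩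
    rw [hvalue] at h1
    obtain ⟨T, hT1, hT2, hT3⟩ := knap_attained (item C (W + 2) 1) W
    have hTle : ∀ μ ∈ T, μ ≤ W := fun μ hμ => (Multiset.le_sum_of_mem hμ).trans hT2
    refine ⟨T.filter (· ∈ I), fun μ hμ => (Multiset.mem_filter.1 hμ).2, ?_, ?_⟩
    · refine le_trans ?_ hT2
      have : T.sum = (T.filter (· ∈ I)).sum + (T.filter (fun μ => ¬ μ ∈ I)).sum := by
        rw [← Multiset.sum_add, Multiset.filter_add_not]
      omega
    · have h2 : (T.map (item C (W + 2) 1)).sum =
          ((T.filter (· ∈ I)).map (item C (W + 2) 1)).sum +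
          ((T.filter (fun μ => ¬ μ ∈ I)).map (item C (W + 2) 1)).sum := by
        rw [← Multiset.sum_add, ← Multiset.map_add, Multiset.filter_add_not]
      have h3 : 0 ≤ ((T.filter (fun μ => ¬ μ ∈ I)).map (item C (W + 2) 1)).sum := by
        refine Multiset.sum_nonneg ?_
        intro x hx
        obtain ⟨μ, hμ, rfl⟩ := Multiset.mem_map.1 hx
        have h4 := Multiset.mem_filter.1 hμ
        exact hitemN μ (hT1 μ h4.1) (hTle μ h4.1) h4.2
      have h4 : ((T.filter (· ∈ I)).map (item C (W + 2) 1)).sum =
          -((((T.filter (· ∈ I)).map p).sum : ℕ) : ℤ) := by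
        have : (T.filter (· ∈ I)).map (item C (W + 2) 1) =
            (T.filter (· ∈ I)).map (fun μ => -((p μ : ℕ) : ℤ)) :=
          Multiset.map_congr rfl fun μ hμ => hitemI μ (Multiset.mem_filter.1 hμ).2
        rw [this, sum_map_neg_cast]
      linarith
  · rintro ⟨T, hT1, hT2, hT3⟩
    obtain ⟨v, hv⟩ := hleast.1
    refine ⟨v, ?_⟩
    rw [hv, hvalue]
    have h1 := knap_le (item C (W + 2) 1) (item_zero C (W + 2) 1) T W hT2
    have h4 : (T.map (item C (W + 2) 1)).sum = -(((T.map p).sum : ℕ) : ℤ) := by
      have : T.map (item C (W + 2) 1) = T.map (fun μ => -((p μ : ℕ) : ℤ)) :=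
        Multiset.map_congr rfl fun μ hμ => hitemI μ (hT1 μ hμ)
      rw [this, sum_map_neg_cast]
    linarith

/-- the multiset of the lengths of the edges of a tour -/
def lengths {n : ℕ} [NeZero n] (v : Equiv.Perm (ZMod n)) : Multiset ℕ :=
  (Finset.univ : Finset (ZMod n)).val.map (fun i => circLen n (v (i + 1) - v i))

theorem realize_lengths {n r g a E : ℕ} [NeZero n]
    (hn : n = r * g) (hg : 2 ≤ g) (ha : Nat.gcd a n = g) (hE : Nat.Coprime E g) (hr : 2 ≤ r)
    (S : Multiset ℤ) (h0 : ∀ e ∈ S, e ≠ 0)
    (hs : (S.map Int.natAbs).sum = 2 * (g - 1)) (hc : g ≤ S.card) :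
    ∃ v : Equiv.Perm (ZMod n), lengths v =
      Multiset.replicate (n - S.card) (circLen n (a : ZMod n)) +
      S.map (fun e : ℤ => circLen n ((a : ZMod n) + (e : ZMod n) * (E : ZMod n))) := by
  classical
  have hcard : S.card ≤ n := by
    have h1 := natAbs_sum_pos h0
    have h2 : 2 * g ≤ r * g := Nat.mul_le_mul_right _ hr
    omega
  let C : ZMod n → (ℕ → ℤ) := fun x => Pi.single (circLen n x) 1
  obtain ⟨v, hv⟩ := realize (E := E) C hn hg ha hE hr (fun x => by simp only [C, circLen_neg]) S h0 hs hc
  refine ⟨v, ?_⟩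
  have hms : ∀ (T : Multiset ℕ) (k : ℕ), ((T.map (fun j => (Pi.single j (1 : ℤ) : ℕ → ℤ))).sum) k =
      (T.count k : ℤ) := by
    intro T k
    induction T using Multiset.induction_on with
    | empty => simp
    | cons j T ih =>
      rw [Multiset.map_cons, Multiset.sum_cons, Pi.add_apply, ih, Multiset.count_cons]
      by_cases h : k = j
      · subst h; simp; ring
      · rw [Pi.single_eq_of_ne h, if_neg h]; simp
  ext k
  have hL : ((lengths v).count k : ℤ) = (tourCost C v) k := by
    rw [← hms]
    unfold lengths tourCost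
    rw [Multiset.map_map]
    rfl
  have hR : (tourCost C v) k = ((Multiset.replicate (n - S.card) (circLen n (a : ZMod n)) +
      S.map (fun e : ℤ => circLen n ((a : ZMod n) + (e : ZMod n) * (E : ZMod n)))).count k : ℤ) := by
    rw [hv, ← hms, Multiset.map_add, Multiset.sum_add, Multiset.map_replicate,
      Multiset.sum_replicate, Multiset.map_map]
    have e1 : (S.map (fun e : ℤ => C ((a : ZMod n) + (e : ZMod n) * (E : ZMod n)) -
        C (a : ZMod n))).sum = (S.map (fun e : ℤ => C ((a : ZMod n) + (e : ZMod n) *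
        (E : ZMod n)))).sum - S.card • C (a : ZMod n) := by
      rw [Multiset.sum_map_sub]; simp
    rw [e1]
    have e2 : n • C (a : ZMod n) = (n - S.card) • C (a : ZMod n) + S.card • C (a : ZMod n) := by
      rw [← add_nsmul, Nat.sub_add_cancel hcard]
    rw [e2]
    have e3 : (n - S.card) • C (a : ZMod n) + S.card • C (a : ZMod n) +
        ((S.map (fun e : ℤ => C ((a : ZMod n) + (e : ZMod n) * (E : ZMod n)))).sum -
        S.card • C (a : ZMod n)) = (n - S.card) • C (a : ZMod n) +
        (S.map (fun e : ℤ => C ((a : ZMod n) + (e : ZMod n) * (E : ZMod n)))).sum := by abel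
    rw [e3]
    rfl
  exact_mod_cast hL.trans hR

end CTSP
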