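import Mathlib
import Pool.Agent.CTSP.Reduction

/-! Circulant TSP with few stripes: reduction from unbounded knapsack. -/

namespace CTSP

open Finset

lemma tourCost_eq_lengths {R : Type*} [AddCommMonoid R] {n : ℕ} [NeZero n] (c : ℕ → R)
    (v : Equiv.Perm (ZMod n)) :
    tourCost (fun x : ZMod n => c (circLen n x)) v = ((lengths v).map c).sum := by
  unfold tourCost lengths
  rw [Multiset.map_map]
  rfl

/-- The cost of the stripe `b` in the instance of the symmetric circulant TSP which encodes the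
unbounded knapsack problem with capacity `W` and items of weight `μ` and profit `p μ`: the stripe
`W + 2` is free, the stripe `W + 1` costs `M`, the stripe `W + 1 - μ` costs `(μ + 1) M - p μ`. -/
def stripeCost (W : ℕ) (p : ℕ → ℕ) (M : ℕ) (b : ℕ) : ℤ :=
  ((W : ℤ) + 2 - b) * M - if b ≤ W then (p (W + 1 - b) : ℤ) else 0

/-- the stripes of the instance -/
def Stripe (W : ℕ) (I : Finset ℕ) (b : ℕ) : Prop := b = W + 2 ∨ b = W + 1 ∨ ∃ μ ∈ I, b = W + 1 - μ

theorem knapsack_stripes (W : ℕ) (I : Finset ℕ) (hI : I ⊆ Finset.Icc 1 W) (p : ℕ → ℕ) (M : ℕ)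
    (hp : ∀ μ ∈ I, p μ ≤ M) (n : ℕ) [NeZero n] (hn : n = 2 * W + 4) (P : ℕ) :
    (∃ v : Equiv.Perm (ZMod n), (∀ b ∈ lengths v, Stripe W I b) ∧
      ((lengths v).map (stripeCost W p M)).sum ≤ (2 * (W : ℤ) + 2) * M - P) ↔
    ∃ T : Multiset ℕ, (∀ μ ∈ T, μ ∈ I) ∧ T.sum ≤ W ∧ P ≤ (T.map p).sum := by
  classical
  set B : ℤ := (2 * (W : ℤ) + 2) * M + 1 with hB
  set c : ℕ → ℤ := fun b => if Stripe W I b then stripeCost W p M b else B with hc
  have hcs : ∀ b, Stripe W I b → c b = stripeCost W p M b := fun b hb => by simp only [hc]; rw [if_pos hb]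
  have hcn : ∀ b, ¬ Stripe W I b → c b = B := fun b hb => by simp only [hc]; rw [if_neg hb]
  have hcI : ∀ μ ∈ I, stripeCost W p M (W + 1 - μ) = ((μ : ℤ) + 1) * M - p μ := by
    intro μ hμ
    have h := Finset.mem_Icc.1 (hI hμ)
    unfold stripeCost
    rw [if_pos (by omega)]
    have e1 : W + 1 - (W + 1 - μ) = μ := by omega
    have e2 : ((W + 1 - μ : ℕ) : ℤ) = (W : ℤ) + 1 - μ := by omega
    rw [e1, e2]; ring
  have h0 : stripeCost W p M (W + 2) = 0 := by
    unfold stripeCost; rw [if_neg (by omega)]; push_cast; ring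
  have h1 : stripeCost W p M (W + 1) = M := by
    unfold stripeCost; rw [if_neg (by omega)]; push_cast; ring
  have henc : EncodesKnapsack W I p M c := by
    refine ⟨by rw [hcs _ (Or.inl rfl), h0], by rw [hcs _ (Or.inr (Or.inl rfl)), h1], ?_, ?_⟩
    · intro μ hμ
      rw [hcs _ (Or.inr (Or.inr ⟨μ, hμ, rfl⟩)), hcI μ hμ]
    · intro μ hμ hμI
      have hμ' := Finset.mem_Icc.1 hμ
      have hns : ¬ Stripe W I (W + 1 - μ) := by
        rintro (h | h | ⟨ν, hν, h⟩)
        · omega
        · omega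
        · have := Finset.mem_Icc.1 (hI hν)
          have : μ = ν := by omega
          exact hμI (this ▸ hν)
      rw [hcn _ hns, hB]
      have : ((μ : ℤ) + 1) * M ≤ (2 * (W : ℤ) + 2) * M :=
        mul_le_mul_of_nonneg_right (by omega) (by positivity)
      linarith
  have key := knapsack_reduction W I hI p M hp c henc n hn (P : ℤ)
  have hcnonneg : ∀ b, 0 ≤ c b := by
    intro b
    by_cases hb : Stripe W I b
    · rw [hcs b hb]
      rcases hb with rfl | rfl | ⟨μ, hμ, rfl⟩
      · rw [h0]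
      · rw [h1]; positivity
      · rw [hcI μ hμ]
        have h2 : (p μ : ℤ) ≤ M := by exact_mod_cast hp μ hμ
        have h3 : (0 : ℤ) ≤ (μ : ℤ) * M := by positivity
        linarith
    · rw [hcn b hb, hB]; positivity
  have hP : ((P : ℕ) : ℤ) = (P : ℤ) := rfl
  constructor
  · rintro ⟨v, hv1, hv2⟩
    have h2 : ((lengths v).map c).sum = ((lengths v).map (stripeCost W p M)).sum := by
      rw [Multiset.map_congr rfl fun b hb => hcs b (hv1 b hb)]
    obtain ⟨T, hT1, hT2, hT3⟩ := key.1 ⟨v, by rw [tourCost_eq_lengths, h2]; exact hv2⟩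
    exact ⟨T, hT1, hT2, by exact_mod_cast hT3⟩
  · rintro ⟨T, hT1, hT2, hT3⟩
    obtain ⟨v, hv⟩ := key.2 ⟨T, hT1, hT2, by exact_mod_cast hT3⟩
    rw [tourCost_eq_lengths] at hv
    have hall : ∀ b ∈ lengths v, Stripe W I b := by
      intro b hb
      by_contra hcon
      have h2 : c b ≤ ((lengths v).map c).sum := by
        refine Multiset.single_le_sum ?_ (c b) (Multiset.mem_map_of_mem c hb)
        intro x hx
        obtain ⟨b', _, rfl⟩ := Multiset.mem_map.1 hx
        exact hcnonneg b'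
      rw [hcn b hcon, hB] at h2
      have h3 : (0 : ℤ) ≤ P := by positivity
      linarith
    refine ⟨v, hall, ?_⟩
    rw [← Multiset.map_congr rfl fun b hb => hcs b (hall b hb)]
    exact hv

end CTSP
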